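import Pool.Agent.Y69.DV.Prod

/-!
# One block of other variables
-/

set_option autoImplicit false
set_option linter.unusedSectionVars false
set_option linter.unusedSimpArgs false

namespace Pool.Agent.Y69.DV

open Matrix Polynomial

variable {K : Type*} [Field K] {σ : Type*} {n : ℕ}

/-- sums of a polynomial in the variables of `J` and one in the other variables -/
theorem separated_gen [Infinite K] (hn : 3 ≤ n) (J : Set σ) (r t : FreeAlgebra K σ)
    (hr : ∀ E E' : Matrix (Fin n) (Fin n) K, E * E = 0 → E' * E' = 0 →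
      ∀ Y : σ → Matrix (Fin n) (Fin n) K, FreeAlgebra.lift K (Wf J E E' Y) r =
        Pp E' * cst (FreeAlgebra.lift K Y r) * Pm E') (ht : t ∈ SA K Jᶜ) (hr' : ¬ SV n r) (ht' : ¬ SV n t)
    (ν : ℕ) (hν : ν ≠ 0) : ¬ SV n ((r + t) ^ ν) := by
  intro hSV
  let a : Fin n := ⟨0, by omega⟩
  let b : Fin n := ⟨1, by omega⟩
  let c : Fin n := ⟨2, by omega⟩
  have hab : a ≠ b := by simp [a, b]
  have hac : a ≠ c := by simp [a, c]
  have hbc : b ≠ c := by simp [b, c]
  obtain ⟨Y, hY⟩ := common [(r, a, b), (t, b, a)] (by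
    intro q hq
    simp only [List.mem_cons, List.not_mem_nil, or_false] at hq
    rcases hq with rfl | rfl
    · exact exists_entry hr' hab
    · exact exists_entry ht' hab.symm)
  have hp : FreeAlgebra.lift K Y r a b ≠ 0 := hY (r, a, b) (by simp)
  have hq : FreeAlgebra.lift K Y t b a ≠ 0 := hY (t, b, a) (by simp)
  set p := FreeAlgebra.lift K Y r a b with hpdef
  set q := FreeAlgebra.lift K Y t b a with hqdef
  set W := Wf J (Matrix.single a b (1 : K)) (Matrix.single b a (1 : K)) Y with hW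
  have hDr : Dg 2 (FreeAlgebra.lift K W r) := by
    rw [hW, hr _ _ (single_sq hab) (single_sq hab.symm) Y]
    exact Dg_conj _ _
  have hDt : Dg 2 (FreeAlgebra.lift K W t) := by
    rw [hW, Wf_not_mem J (single_sq hab) Y t ht]
    exact Dg_conj _ _
  have hcr : cf 2 (FreeAlgebra.lift K W r) = -(p • Matrix.single b a (1 : K)) := by
    rw [hW, hr _ _ (single_sq hab) (single_sq hab.symm) Y, cf_conj, EME]
  have hct : cf 2 (FreeAlgebra.lift K W t) = -(q • Matrix.single a b (1 : K)) := by
    rw [hW, Wf_not_mem J (single_sq hab) Y t ht, cf_conj, EME]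
  have hD : Dg 2 (FreeAlgebra.lift K W (r + t)) := by
    rw [map_add]; exact hDr.add hDt
  have hL : cf 2 (FreeAlgebra.lift K W (r + t)) =
      -(p • Matrix.single b a (1 : K)) + -(q • Matrix.single a b (1 : K)) := by
    rw [map_add, cf_add, hcr, hct]
  obtain ⟨c₀, hc₀⟩ := cf_scalar (M := FreeAlgebra.lift K W ((r + t) ^ ν)) (fun s => by
    rw [evs_lift]
    exact hSV _) (2 * ν) (by omega)
  rw [map_pow, cf_pow hD] at hc₀
  have hu : (Pi.single c (1 : K) : Fin n → K) ≠ 0 := by
    intro h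
    have := congrFun h c
    simp at this
  have hLu : (cf 2 (FreeAlgebra.lift K W (r + t))).mulVec (Pi.single c (1 : K)) = 0 := by
    rw [hL]
    ext i
    simp [Matrix.single_apply, hac, hbc]
  have h0 := mulVec_kernel hu hLu hν hc₀
  have hsq : cf 2 (FreeAlgebra.lift K W (r + t)) * cf 2 (FreeAlgebra.lift K W (r + t)) *
      Matrix.single a b (1 : K) = (p * q) • Matrix.single a b (1 : K) := by
    rw [hL]
    simp only [add_mul, mul_add, neg_mul, mul_neg, smul_mul_assoc, mul_smul_comm, smul_smul,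
      Matrix.single_mul_single_same, mul_one, neg_neg]
    rw [Matrix.single_mul_single_of_ne _ _ _ _ hab.symm,
      Matrix.single_mul_single_of_ne _ _ _ _ hab]
    simp only [smul_zero, zero_mul, add_zero, zero_add, smul_add, smul_neg, neg_zero,
      Matrix.single_mul_single_same, mul_one]
    rw [Matrix.single_mul_single_of_ne _ _ _ _ hab.symm]
    simp [mul_comm]
  have hpow : ∀ m : ℕ, cf 2 (FreeAlgebra.lift K W (r + t)) ^ (2 * m) *
      Matrix.single a b (1 : K) = (p * q) ^ m • Matrix.single a b (1 : K) := by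
    intro m
    induction m with
    | zero => rw [mul_zero, pow_zero, pow_zero, one_mul, one_smul]
    | succ m ih =>
      rw [mul_add, mul_one, pow_add, pow_two, mul_assoc, hsq, mul_smul_comm, ih, smul_smul,
        ← pow_succ']
  have h4 := hpow ν
  rw [mul_comm 2 ν, pow_mul, h0, zero_pow two_ne_zero, zero_mul] at h4
  have h5 := congrFun (congrFun h4 a) b
  simp only [Matrix.zero_apply, Matrix.smul_apply, Matrix.single_apply_same, smul_eq_mul,
    mul_one] at h5
  exact pow_ne_zero ν (mul_ne_zero hp hq) h5.symm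


lemma block_nilp {a b : Fin n} (hab : a ≠ b) {α β γ δ : K} {L : Matrix (Fin n) (Fin n) K}
    (hL : L = α • Matrix.single a a (1 : K) + β • Matrix.single a b (1 : K) +
      γ • Matrix.single b a (1 : K) + δ • Matrix.single b b (1 : K)) {ν : ℕ} (h : L ^ ν = 0) :
    α + δ = 0 ∧ α * α + β * γ = 0 := by
  have h1 : α + δ = 0 := by
    have h2 : IsNilpotent L.trace := Matrix.isNilpotent_trace_of_isNilpotent ⟨ν, h⟩
    have h3 := h2.eq_zero
    rw [hL] at h3
    simpa [Matrix.trace_add, Matrix.trace_smul, Matrix.trace_single_eq_of_ne _ _ _ hab,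
      Matrix.trace_single_eq_of_ne _ _ _ hab.symm] using h3
  refine ⟨h1, ?_⟩
  have h2 : L * Matrix.single a b (1 : K) =
      α • Matrix.single a b (1 : K) + γ • Matrix.single b b (1 : K) := by
    rw [hL]
    simp only [add_mul, smul_mul_assoc, Matrix.single_mul_single_same, mul_one]
    rw [Matrix.single_mul_single_of_ne _ _ _ _ hab.symm,
      Matrix.single_mul_single_of_ne _ _ _ _ hab.symm]
    simp
  have h3 : L * Matrix.single b b (1 : K) =
      β • Matrix.single a b (1 : K) + δ • Matrix.single b b (1 : K) := by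
    rw [hL]
    simp only [add_mul, smul_mul_assoc, Matrix.single_mul_single_same, mul_one]
    rw [Matrix.single_mul_single_of_ne _ _ _ _ hab,
      Matrix.single_mul_single_of_ne _ _ _ _ hab]
    simp
  have h4 : L * (L * Matrix.single a b (1 : K)) = (α * α + β * γ) • Matrix.single a b (1 : K) := by
    rw [h2, mul_add, mul_smul_comm, mul_smul_comm, h2, h3]
    have h5 : δ = -α := by linear_combination h1
    rw [h5]
    ext i j
    simp only [Matrix.add_apply, Matrix.smul_apply, smul_eq_mul]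
    ring
  have hpow : ∀ m : ℕ, L ^ (2 * m) * Matrix.single a b (1 : K) =
      (α * α + β * γ) ^ m • Matrix.single a b (1 : K) := by
    intro m
    induction m with
    | zero => rw [mul_zero, pow_zero, pow_zero, one_mul, one_smul]
    | succ m ih =>
      rw [mul_add, mul_one, pow_add, pow_two, mul_assoc, mul_assoc, h4, mul_smul_comm, ih,
        smul_smul, ← pow_succ']
  have h6 := hpow ν
  rw [mul_comm 2 ν, pow_mul, h, zero_pow two_ne_zero, zero_mul] at h6
  have h7 := congrFun (congrFun h6 a) b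
  simp only [Matrix.zero_apply, Matrix.smul_apply, Matrix.single_apply_same, smul_eq_mul,
    mul_one] at h7
  by_contra hne
  exact pow_ne_zero ν hne h7.symm

/-- the exponent vectors -/
noncomputable def ex (p : ℕ × ℕ) : Fin 2 →₀ ℕ := Finsupp.single 0 p.1 + Finsupp.single 1 p.2

lemma ex_inj {p q : ℕ × ℕ} (h : ex p = ex q) : p = q := by
  have h0 := DFunLike.congr_fun h 0
  have h1 := DFunLike.congr_fun h 1
  simp [ex] at h0 h1
  exact Prod.ext h0 h1

lemma ex_ne {p : ℕ × ℕ} (h : p ≠ (0, 0)) : ex p ≠ 0 := by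
  intro h0
  apply h
  apply ex_inj
  rw [h0]
  simp [ex]

lemma swap_poly [Infinite K] (S : Finset (ℕ × ℕ)) (η : ℕ × ℕ → K)
    (h1 : ∀ s t : K, ∑ p ∈ S, η p * (s ^ p.1 * s ^ p.2) = ∑ p ∈ S, η p * (t ^ p.1 * t ^ p.2))
    (h2 : ∀ s t : K, (∑ p ∈ S, η p * (s ^ p.1 * s ^ p.2)) * (∑ p ∈ S, η p * (s ^ p.1 * s ^ p.2)) =
      (∑ p ∈ S, η p * (s ^ p.1 * t ^ p.2)) * (∑ p ∈ S, η p * (t ^ p.1 * s ^ p.2))) :
    ∀ p ∈ S, p ≠ (0, 0) → η p = 0 := by
  classical
  intro p hp hp0
  set c := ∑ p ∈ S, η p * ((0 : K) ^ p.1 * (0 : K) ^ p.2) with hc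
  let P : MvPolynomial (Fin 2) K := ∑ p ∈ S, MvPolynomial.monomial (ex p) (η p)
  let Q : MvPolynomial (Fin 2) K := ∑ p ∈ S, MvPolynomial.monomial (ex (p.2, p.1)) (η p)
  have hevm : ∀ (x : Fin 2 → K) (p : ℕ × ℕ) (r : K),
      MvPolynomial.eval x (MvPolynomial.monomial (ex p) r) = r * (x 0 ^ p.1 * x 1 ^ p.2) := by
    intro x p r
    rw [MvPolynomial.eval_monomial, ex, Finsupp.prod_add_index' (by simp) (by
      intro i a b; rw [pow_add]), Finsupp.prod_single_index (by simp),
      Finsupp.prod_single_index (by simp)]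
  have hPQ : P * Q = MvPolynomial.C (c * c) := by
    apply MvPolynomial.funext
    intro x
    rw [map_mul, MvPolynomial.eval_C, map_sum, map_sum]
    simp only [hevm]
    have h3 := h2 (x 0) (x 1)
    rw [h1 (x 0) 0, ← hc] at h3
    rw [h3]
    congr 1
    apply Finset.sum_congr rfl
    intro p _
    ring
  have hcP : MvPolynomial.coeff (ex p) P = η p := by
    rw [MvPolynomial.coeff_sum, Finset.sum_eq_single p]
    · rw [MvPolynomial.coeff_monomial, if_pos rfl]
    · intro q _ hqp
      rw [MvPolynomial.coeff_monomial, if_neg fun h => hqp (ex_inj h)]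
    · exact fun h => absurd hp h
  have hcQ : MvPolynomial.coeff (ex (p.2, p.1)) Q = η p := by
    rw [MvPolynomial.coeff_sum, Finset.sum_eq_single p]
    · rw [MvPolynomial.coeff_monomial, if_pos rfl]
    · intro q _ hqp
      rw [MvPolynomial.coeff_monomial, if_neg fun h => hqp (by
        have h3 := ex_inj h
        rw [Prod.mk.injEq] at h3
        exact Prod.ext h3.2 h3.1)]
    · exact fun h => absurd hp h
  by_cases hcc : c * c = 0
  · rw [hcc, MvPolynomial.C_0, mul_eq_zero] at hPQ
    rcases hPQ with h | h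
    · rw [← hcP, h, MvPolynomial.coeff_zero]
    · rw [← hcQ, h, MvPolynomial.coeff_zero]
  · have hu : IsUnit P := by
      apply isUnit_of_mul_isUnit_left (y := Q)
      rw [hPQ]
      exact (IsUnit.mk0 _ hcc).map MvPolynomial.C
    obtain ⟨r, -, hr⟩ := MvPolynomial.isUnit_iff_eq_C_of_isReduced.1 hu
    rw [← hcP, hr, MvPolynomial.coeff_C, if_neg (ex_ne hp0).symm]

lemma conj_pow' {R : Type*} [Ring R] {Q Q' : R} (h : Q' * Q = 1) (h' : Q * Q' = 1) (D : R)
    (i : ℕ) : (Q * D * Q') ^ i = Q * D ^ i * Q' := by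
  induction i with
  | zero => rw [pow_zero, pow_zero, mul_one, h']
  | succ i ih =>
    rw [pow_succ, ih, pow_succ]
    calc Q * D ^ i * Q' * (Q * D * Q') = Q * D ^ i * (Q' * Q) * D * Q' := by
          simp only [mul_assoc]
      _ = Q * (D ^ i * D) * Q' := by
          rw [h, mul_one]
          simp only [mul_assoc]

lemma diag_single (d : Fin n → K) (p q : Fin n) (i j : ℕ) :
    Matrix.diagonal d ^ i * Matrix.single p q (1 : K) * Matrix.diagonal d ^ j =
      (d p ^ i * d q ^ j) • Matrix.single p q (1 : K) := by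
  rw [Matrix.diagonal_pow, Matrix.diagonal_pow]
  ext r s
  rw [Matrix.mul_diagonal, Matrix.diagonal_mul, Matrix.smul_apply, Matrix.single_apply]
  by_cases hrs : p = r ∧ q = s
  · obtain ⟨rfl, rfl⟩ := hrs
    simp
  · rw [if_neg hrs]
    simp

/-- one block of other variables -/
theorem block_main [Infinite K] (hn : 3 ≤ n) (x : σ) (S : Finset (ℕ × ℕ))
    (h : ℕ × ℕ → FreeAlgebra K σ) (hh : ∀ p, h p ∈ SA K ({x} : Set σ)ᶜ) (ν : ℕ) (hν : ν ≠ 0)
    (hSV : SV n ((∑ p ∈ S, FreeAlgebra.ι K x ^ p.1 * h p * FreeAlgebra.ι K x ^ p.2) ^ ν)) :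
    ∀ p ∈ S, p ≠ (0, 0) → SV n (h p) := by
  classical
  let a : Fin n := ⟨0, by omega⟩
  let b : Fin n := ⟨1, by omega⟩
  let e : Fin n := ⟨2, by omega⟩
  have hab : a ≠ b := by simp [a, b]
  have hae : a ≠ e := by simp [a, e]
  have hbe : b ≠ e := by simp [b, e]
  intro p₀ hp₀ hp0
  by_contra hns
  obtain ⟨Y0, hY0⟩ := exists_entry hns hab.symm
  apply hY0
  set η : ℕ × ℕ → K := fun p => FreeAlgebra.lift K Y0 (h p) b a with hη
  have hkey : ∀ s t : K,
      (∑ p ∈ S, η p * (s ^ p.1 * s ^ p.2) = ∑ p ∈ S, η p * (t ^ p.1 * t ^ p.2)) ∧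
      (∑ p ∈ S, η p * (s ^ p.1 * s ^ p.2)) * (∑ p ∈ S, η p * (s ^ p.1 * s ^ p.2)) =
      (∑ p ∈ S, η p * (s ^ p.1 * t ^ p.2)) * (∑ p ∈ S, η p * (t ^ p.1 * s ^ p.2)) := by
    intro s t
    let d : Fin n → K := fun i => if i = a then s else if i = b then t else 0
    have hda : d a = s := by simp [d]
    have hdb : d b = t := by simp [d, hab.symm]
    let D : Matrix (Fin n) (Fin n) K := Matrix.diagonal d
    let Q : Matrix (Fin n) (Fin n) K := 1 + Matrix.single b a (1 : K)
    let Q' : Matrix (Fin n) (Fin n) K := 1 - Matrix.single b a (1 : K)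
    have hQQ : Q * Q' = 1 := by
      show (1 + Matrix.single b a (1 : K)) * (1 - Matrix.single b a (1 : K)) = 1
      rw [add_mul, mul_sub, mul_sub, one_mul, one_mul, mul_one, single_sq hab.symm]
      abel
    have hQQ' : Q' * Q = 1 := by
      show (1 - Matrix.single b a (1 : K)) * (1 + Matrix.single b a (1 : K)) = 1
      rw [sub_mul, mul_add, mul_add, one_mul, one_mul, mul_one, single_sq hab.symm]
      abel
    let Y : σ → Matrix (Fin n) (Fin n) K := Function.update Y0 x (Q * D * Q')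
    have hYh : ∀ p, FreeAlgebra.lift K Y (h p) = FreeAlgebra.lift K Y0 (h p) := fun p =>
      lift_congr _ Y Y0 (fun i hi => Function.update_of_ne hi _ _) (h p) (hh p)
    have hxi : ∀ i : ℕ, FreeAlgebra.ι K x ^ i ∈ SA K ({x} : Set σ) := fun i =>
      Subalgebra.pow_mem _ (Algebra.subset_adjoin (Set.mem_image_of_mem (FreeAlgebra.ι K)
        (Set.mem_singleton x))) i
    have hYx : ∀ i : ℕ, FreeAlgebra.lift K Y (FreeAlgebra.ι K x ^ i) = Q * D ^ i * Q' := by
      intro i
      rw [map_pow, FreeAlgebra.lift_ι_apply]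
      show (Function.update Y0 x (Q * D * Q') x) ^ i = _
      rw [Function.update_self, conj_pow' hQQ' hQQ]
    have hDj : ∀ p : ℕ × ℕ, Dg 2 (ev {x} a b Y
        (FreeAlgebra.ι K x ^ p.1 * h p * FreeAlgebra.ι K x ^ p.2)) := fun p => by
      rw [map_mul, map_mul]
      exact ((Dg_evA (a := a) (b := b) {x} Y _ (hxi p.1)).mul (Dg_evB {x} hab Y _ (hh p))).mul
        (Dg_evA (a := a) (b := b) {x} Y _ (hxi p.2))
    have hcj : ∀ p : ℕ × ℕ, cf 2 (ev {x} a b Y
        (FreeAlgebra.ι K x ^ p.1 * h p * FreeAlgebra.ι K x ^ p.2)) =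
        -(η p • (Q * D ^ p.1 * Q' * Matrix.single a b (1 : K) * (Q * D ^ p.2 * Q'))) := fun p => by
      rw [map_mul, map_mul]
      have h3 := cf_mul ((Dg_evA (a := a) (b := b) {x} Y _ (hxi p.1)).mul
        (Dg_evB {x} hab Y _ (hh p))) (Dg_evA (a := a) (b := b) {x} Y _ (hxi p.2))
      rw [cf_mul (Dg_evA (a := a) (b := b) {x} Y _ (hxi p.1)) (Dg_evB {x} hab Y _ (hh p)),
        cf_evA {x} Y _ (hxi p.1), cf_evB {x} hab Y _ (hh p), cf_evA {x} Y _ (hxi p.2),
        hYx, hYx, hYh, mul_neg, mul_smul_comm, neg_mul, smul_mul_assoc] at h3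
      exact h3
    have hD : Dg 2 (ev {x} a b Y
        (∑ p ∈ S, FreeAlgebra.ι K x ^ p.1 * h p * FreeAlgebra.ι K x ^ p.2)) := by
      have h3 : ∑ p ∈ S, FreeAlgebra.ι K x ^ p.1 * h p * FreeAlgebra.ι K x ^ p.2 ∈
        DS {x} Y a b 2 := Submodule.sum_mem _ fun p _ => hDj p
      exact h3
    have hcf : cf 2 (ev {x} a b Y
        (∑ p ∈ S, FreeAlgebra.ι K x ^ p.1 * h p * FreeAlgebra.ι K x ^ p.2)) =
        ∑ p ∈ S, -(η p • (Q * D ^ p.1 * Q' * Matrix.single a b (1 : K) * (Q * D ^ p.2 * Q'))) := by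
      rw [map_sum]
      have h3 : ∀ T : Finset (ℕ × ℕ), cf 2 (∑ p ∈ T, ev {x} a b Y
          (FreeAlgebra.ι K x ^ p.1 * h p * FreeAlgebra.ι K x ^ p.2)) =
          ∑ p ∈ T, -(η p • (Q * D ^ p.1 * Q' * Matrix.single a b (1 : K) *
            (Q * D ^ p.2 * Q'))) := by
        intro T
        induction T using Finset.induction_on with
        | empty => rw [Finset.sum_empty, Finset.sum_empty, cf_zero]
        | insert j T hj ih => rw [Finset.sum_insert hj, Finset.sum_insert hj, cf_add, hcj, ih]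
      exact h3 S
    set f := ∑ p ∈ S, FreeAlgebra.ι K x ^ p.1 * h p * FreeAlgebra.ι K x ^ p.2 with hf
    obtain ⟨c, hc⟩ := cf_scalar (M := ev {x} a b Y (f ^ ν)) (fun s => by
      unfold ev
      rw [evs_lift]
      exact hSV _) (2 * ν) (by omega)
    rw [map_pow, cf_pow hD] at hc
    set L := cf 2 (ev {x} a b Y f) with hL
    have hc' : (Q' * L * Q) ^ ν = Matrix.scalar (Fin n) c := by
      rw [conj_pow' hQQ hQQ', hc]
      have h3 := (Matrix.scalar_commute c (fun _ => Commute.all _ _) Q').eq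
      rw [← h3, mul_assoc, hQQ', mul_one]
    have hQEQ : Q' * Matrix.single a b (1 : K) * Q = Matrix.single a a (1 : K) +
        Matrix.single a b (1 : K) - Matrix.single b a (1 : K) - Matrix.single b b (1 : K) := by
      show (1 - Matrix.single b a (1 : K)) * Matrix.single a b (1 : K) *
        (1 + Matrix.single b a (1 : K)) = _
      rw [sub_mul, one_mul, Matrix.single_mul_single_same, mul_add, mul_one, sub_mul,
        Matrix.single_mul_single_same, Matrix.single_mul_single_same]
      simp only [mul_one]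
      abel
    have hL' : Q' * L * Q = (-∑ p ∈ S, η p * (s ^ p.1 * s ^ p.2)) • Matrix.single a a (1 : K) +
        (-∑ p ∈ S, η p * (s ^ p.1 * t ^ p.2)) • Matrix.single a b (1 : K) +
        (∑ p ∈ S, η p * (t ^ p.1 * s ^ p.2)) • Matrix.single b a (1 : K) +
        (∑ p ∈ S, η p * (t ^ p.1 * t ^ p.2)) • Matrix.single b b (1 : K) := by
      rw [hcf, Finset.mul_sum, Finset.sum_mul, neg_smul, neg_smul, Finset.sum_smul,
        Finset.sum_smul, Finset.sum_smul, Finset.sum_smul, ← Finset.sum_neg_distrib,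
        ← Finset.sum_neg_distrib, ← Finset.sum_add_distrib, ← Finset.sum_add_distrib,
        ← Finset.sum_add_distrib]
      apply Finset.sum_congr rfl
      intro p _
      have h5 : Q' * (Q * D ^ p.1 * Q' * Matrix.single a b (1 : K) * (Q * D ^ p.2 * Q')) * Q =
          D ^ p.1 * (Q' * Matrix.single a b (1 : K) * Q) * D ^ p.2 := by
        calc Q' * (Q * D ^ p.1 * Q' * Matrix.single a b (1 : K) * (Q * D ^ p.2 * Q')) * Q
            = (Q' * Q) * D ^ p.1 * (Q' * Matrix.single a b (1 : K) * Q) * D ^ p.2 * (Q' * Q) := by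
              simp only [mul_assoc]
          _ = _ := by rw [hQQ', one_mul, mul_one]
      rw [mul_neg, mul_smul_comm, neg_mul, smul_mul_assoc, h5, hQEQ, mul_sub, mul_sub, mul_add,
        sub_mul, sub_mul, add_mul, diag_single, diag_single, diag_single, diag_single, hda, hdb]
      simp only [smul_sub, smul_add, smul_smul]
      abel
    have hu : (Pi.single e (1 : K) : Fin n → K) ≠ 0 := by
      intro h
      have := congrFun h e
      simp at this
    have hLu : (Q' * L * Q).mulVec (Pi.single e (1 : K)) = 0 := by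
      rw [hL']
      ext i
      simp [Matrix.single_apply, hae, hbe]
    have h0 := mulVec_kernel hu hLu hν hc'
    obtain ⟨h6, h7⟩ := block_nilp hab hL' h0
    refine ⟨by linear_combination -h6, ?_⟩
    linear_combination h7
  exact swap_poly S η (fun s t => (hkey s t).1) (fun s t => (hkey s t).2) p₀ hp₀ hp0

end Pool.Agent.Y69.DV
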