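import Pool.Agent.Y69.DV.Gen

/-!
# Degeneration of the values at conjugated variables
-/

set_option autoImplicit false
set_option linter.unusedSectionVars false

namespace Pool.Agent.Y69.DV

open Matrix Polynomial

variable {K : Type*} [Field K] {σ : Type*} {n : ℕ}

/-- matrices with polynomial entries -/
abbrev PMat (K : Type*) [Field K] (n : ℕ) := Matrix (Fin n) (Fin n) K[X]

/-- all entries have degree at most `d` -/
def Dg (d : ℕ) (M : PMat K n) : Prop := ∀ i j, (M i j).natDegree ≤ d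

/-- the coefficient matrix -/
def cf (d : ℕ) (M : PMat K n) : Matrix (Fin n) (Fin n) K := M.map fun q => q.coeff d

lemma Dg.mono {d e : ℕ} {M : PMat K n} (h : Dg d M) (hde : d ≤ e) : Dg e M :=
  fun i j => (h i j).trans hde

lemma Dg.cf_eq_zero {d e : ℕ} {M : PMat K n} (h : Dg d M) (hde : d < e) : cf e M = 0 := by
  ext i j
  exact Polynomial.coeff_eq_zero_of_natDegree_lt (lt_of_le_of_lt (h i j) hde)

lemma Dg.add {d : ℕ} {M N : PMat K n} (hM : Dg d M) (hN : Dg d N) : Dg d (M + N) :=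
  fun i j => (Polynomial.natDegree_add_le _ _).trans (max_le (hM i j) (hN i j))

lemma Dg.sub {d : ℕ} {M N : PMat K n} (hM : Dg d M) (hN : Dg d N) : Dg d (M - N) :=
  fun i j => (Polynomial.natDegree_sub_le _ _).trans (max_le (hM i j) (hN i j))

lemma cf_add (d : ℕ) (M N : PMat K n) : cf d (M + N) = cf d M + cf d N := by
  ext i j
  exact Polynomial.coeff_add _ _ _

lemma cf_smul (d : ℕ) (c : K) (M : PMat K n) : cf d (c • M) = c • cf d M := by
  ext i j
  show (c • M i j).coeff d = c • (M i j).coeff d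
  exact Polynomial.coeff_smul c (M i j) d

lemma Dg.smul {d : ℕ} (c : K) {M : PMat K n} (hM : Dg d M) : Dg d (c • M) :=
  fun i j => (Polynomial.natDegree_smul_le _ _).trans (hM i j)

lemma Dg.zero (d : ℕ) : Dg d (0 : PMat K n) := fun i j => by simp

lemma cf_zero (d : ℕ) : cf d (0 : PMat K n) = 0 := by
  ext i j
  show (0 : K[X]).coeff d = 0
  simp

lemma Dg.mul {d e : ℕ} {M N : PMat K n} (hM : Dg d M) (hN : Dg e N) : Dg (d + e) (M * N) := by
  intro i j
  rw [Matrix.mul_apply]
  apply Polynomial.natDegree_sum_le_of_forall_le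
  intro k _
  exact Polynomial.natDegree_mul_le.trans (add_le_add (hM i k) (hN k j))

lemma cf_mul {d e : ℕ} {M N : PMat K n} (hM : Dg d M) (hN : Dg e N) :
    cf (d + e) (M * N) = cf d M * cf e N := by
  ext i j
  show (∑ k, M i k * N k j).coeff (d + e) = ∑ k, (M i k).coeff d * (N k j).coeff e
  rw [Polynomial.finsetSum_coeff]
  apply Finset.sum_congr rfl
  intro k _
  exact Polynomial.coeff_mul_add_eq_of_natDegree_le (hM i k) (hN k j)

lemma Dg.one : Dg 0 (1 : PMat K n) := by
  intro i j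
  rw [Matrix.one_apply]
  split_ifs <;> simp

lemma cf_one : cf 0 (1 : PMat K n) = 1 := by
  ext i j
  show ((1 : PMat K n) i j).coeff 0 = _
  rw [Matrix.one_apply, Matrix.one_apply]
  split_ifs <;> simp

lemma Dg.pow {d : ℕ} {M : PMat K n} (hM : Dg d M) (m : ℕ) : Dg (d * m) (M ^ m) := by
  induction m with
  | zero => rw [pow_zero, mul_zero]; exact Dg.one
  | succ m ih => rw [pow_succ, mul_add, mul_one]; exact ih.mul hM

lemma cf_pow {d : ℕ} {M : PMat K n} (hM : Dg d M) (m : ℕ) : cf (d * m) (M ^ m) = cf d M ^ m := by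
  induction m with
  | zero => rw [pow_zero, mul_zero, pow_zero]; exact cf_one
  | succ m ih => rw [pow_succ, mul_add, mul_one, cf_mul (hM.pow m) hM, ih, pow_succ]

/-- constant matrices -/
noncomputable def cst (A : Matrix (Fin n) (Fin n) K) : PMat K n := A.map Polynomial.C

lemma Dg.cst (A : Matrix (Fin n) (Fin n) K) : Dg 0 (cst A) := fun i j => by
  show (Polynomial.C (A i j)).natDegree ≤ 0
  rw [Polynomial.natDegree_C]

lemma cf_cst (A : Matrix (Fin n) (Fin n) K) : cf 0 (cst A) = A := by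
  ext i j
  exact Polynomial.coeff_C_zero

lemma cst_mul (A B : Matrix (Fin n) (Fin n) K) : cst (A * B) = cst A * cst B :=
  Matrix.map_mul

/-- the family `1 + s E` -/
noncomputable def Pp (E : Matrix (Fin n) (Fin n) K) : PMat K n := 1 + (X : K[X]) • cst E

/-- the family `1 - s E` -/
noncomputable def Pm (E : Matrix (Fin n) (Fin n) K) : PMat K n := 1 - (X : K[X]) • cst E

lemma Dg.X_smul {d : ℕ} {M : PMat K n} (hM : Dg d M) : Dg (d + 1) ((X : K[X]) • M) := by
  intro i j
  show ((X : K[X]) * M i j).natDegree ≤ d + 1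
  refine Polynomial.natDegree_mul_le.trans ?_
  have := hM i j
  have h := Polynomial.natDegree_X_le (R := K)
  omega

lemma cf_X_smul (d : ℕ) (M : PMat K n) : cf (d + 1) ((X : K[X]) • M) = cf d M := by
  ext i j
  exact Polynomial.coeff_X_mul _ _

lemma Dg.Pp (E : Matrix (Fin n) (Fin n) K) : Dg 1 (Pp E) :=
  (Dg.one.mono (Nat.zero_le 1)).add (Dg.cst E).X_smul

lemma Dg.Pm (E : Matrix (Fin n) (Fin n) K) : Dg 1 (Pm E) :=
  (Dg.one.mono (Nat.zero_le 1)).sub (Dg.cst E).X_smul

lemma cf_Pp (E : Matrix (Fin n) (Fin n) K) : cf 1 (Pp E) = E := by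
  unfold DV.Pp
  rw [cf_add, Dg.one.cf_eq_zero Nat.zero_lt_one, zero_add, cf_X_smul, cf_cst]

lemma cf_Pm (E : Matrix (Fin n) (Fin n) K) : cf 1 (Pm E) = -E := by
  unfold DV.Pm
  have h : (1 : PMat K n) - (X : K[X]) • cst E = 1 + (-1 : K) • ((X : K[X]) • cst E) := by
    rw [neg_smul, one_smul, sub_eq_add_neg]
  rw [h, cf_add, Dg.one.cf_eq_zero Nat.zero_lt_one, zero_add, cf_smul, cf_X_smul, cf_cst,
    neg_smul, one_smul]

lemma Pp_mul_Pm {E : Matrix (Fin n) (Fin n) K} (hE : E * E = 0) : Pp E * Pm E = 1 := by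
  unfold DV.Pp DV.Pm
  rw [add_mul, one_mul, mul_sub, mul_one, smul_mul_smul_comm, ← cst_mul, hE]
  have h0 : cst (0 : Matrix (Fin n) (Fin n) K) = 0 := by ext i j; simp [cst]
  rw [h0, smul_zero]
  abel

lemma Pm_mul_Pp {E : Matrix (Fin n) (Fin n) K} (hE : E * E = 0) : Pm E * Pp E = 1 := by
  unfold DV.Pp DV.Pm
  rw [sub_mul, one_mul, mul_add, mul_one, smul_mul_smul_comm, ← cst_mul, hE]
  have h0 : cst (0 : Matrix (Fin n) (Fin n) K) = 0 := by ext i j; simp [cst]
  rw [h0, smul_zero]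
  abel

/-- the conjugate of a constant matrix -/
lemma Dg_conj (E A : Matrix (Fin n) (Fin n) K) : Dg 2 (Pp E * cst A * Pm E) := by
  have h := ((Dg.Pp E).mul (Dg.cst A)).mul (Dg.Pm E)
  exact h

lemma cf_conj (E A : Matrix (Fin n) (Fin n) K) : cf 2 (Pp E * cst A * Pm E) = -(E * A * E) := by
  have h := cf_mul ((Dg.Pp E).mul (Dg.cst A)) (Dg.Pm E)
  rw [cf_mul (Dg.Pp E) (Dg.cst A), cf_Pp, cf_cst, cf_Pm, mul_neg] at h
  exact h

/-- evaluation of the parameter -/
noncomputable def evs (s : K) (M : PMat K n) : Matrix (Fin n) (Fin n) K :=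
  (Polynomial.aeval s : K[X] →ₐ[K] K).mapMatrix M

lemma evs_lift (s : K) (W : σ → PMat K n) (f : FreeAlgebra K σ) :
    evs s (FreeAlgebra.lift K W f) = FreeAlgebra.lift K (fun i => evs s (W i)) f :=
  lift_map (Polynomial.aeval s : K[X] →ₐ[K] K) W f

/-- if all specialisations are scalar matrices then the coefficients are scalar matrices -/
lemma cf_scalar [Infinite K] {M : PMat K n} (h : ∀ s : K, ∃ c : K, evs s M = Matrix.scalar (Fin n) c)
    (d : ℕ) (hn : 0 < n) : ∃ c : K, cf d M = Matrix.scalar (Fin n) c := by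
  have hoff : ∀ i j, i ≠ j → M i j = 0 := by
    intro i j hij
    apply Polynomial.funext
    intro s
    obtain ⟨c, hc⟩ := h s
    have h1 := congrFun (congrFun hc i) j
    rw [Matrix.scalar_apply, Matrix.diagonal_apply_ne _ hij] at h1
    rw [Polynomial.eval_zero, ← h1]
    simp [evs]
  have hdi : ∀ i j, M i i = M j j := by
    intro i j
    apply Polynomial.funext
    intro s
    obtain ⟨c, hc⟩ := h s
    have h1 := congrFun (congrFun hc i) i
    have h2 := congrFun (congrFun hc j) j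
    rw [Matrix.scalar_apply, Matrix.diagonal_apply_eq] at h1 h2
    have h3 := h1.trans h2.symm
    simpa [evs, Polynomial.aeval_def, Polynomial.eval₂_eq_eval_map] using h3
  refine ⟨(M ⟨0, hn⟩ ⟨0, hn⟩).coeff d, ?_⟩
  ext i j
  rw [Matrix.scalar_apply, Matrix.diagonal_apply]
  by_cases hij : i = j
  · subst hij
    rw [if_pos rfl, ← hdi i ⟨0, hn⟩]
    rfl
  · rw [if_neg hij]
    show (M i j).coeff d = 0
    rw [hoff i j hij, Polynomial.coeff_zero]

end Pool.Agent.Y69.DV
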