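import Pool.Agent.Y69.DV.Prod

/-!
# Sums of less than `n` products
-/

set_option autoImplicit false
set_option linter.unusedSectionVars false
set_option linter.unusedSimpArgs false

namespace Pool.Agent.Y69.DV

open Matrix Polynomial

variable {K : Type*} [Field K] {σ : Type*} {n : ℕ}

/-- sums of less than `n` products `g h f₁ ⋯ f_k w` -/
theorem few_products [Infinite K] (J : Set σ) (m k : ℕ) (hm : m < n)
    (g h w : Fin m → FreeAlgebra K σ) (L : List (FreeAlgebra K σ)) (hlen : L.length = k)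
    (hL : ∀ f ∈ L, Lead n J f) (hg : ∀ j, g j ∈ SA K J) (hh : ∀ j, h j ∈ SA K Jᶜ)
    (hw : ∀ j, w j ∈ SA K J)
    (hli : ∀ c : Fin m → K, SV n (∑ j, c j • h j) → c = 0) (j₀ : Fin m)
    (hj₀ : ¬ SV n (w j₀ * g j₀)) (y : FreeAlgebra K σ)
    (hy : y ∈ SA K J * (SA K Jᶜ * SA K J) ^ k)
    (ν : ℕ) (hν : ν ≠ 0) : ¬ SV n ((∑ j, g j * h j * L.prod * w j + y) ^ ν) := by
  classical
  intro hSV
  have hm0 : 0 < m := j₀.pos
  let a : Fin n := ⟨0, by omega⟩
  let b : Fin n := ⟨1, by omega⟩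
  have hab : a ≠ b := by simp [a, b]
  have hev : ∀ (p : FreeAlgebra K σ) (i j : Fin n) (X : σ → Matrix (Fin n) (Fin n) K),
      spz X (FreeAlgebra.lift K (gen K σ n) p i j) = FreeAlgebra.lift K X p i j := by
    intro p i j X
    rw [← spz_gen X p]
    rfl
  obtain ⟨F, hF, hFY⟩ := prod_poly' hab L hL
  let F' : MvPolynomial (σ × Fin n × Fin n) K := ∑ j, FreeAlgebra.lift K (gen K σ n) (h j) b a *
    FreeAlgebra.lift K (gen K σ n) (w j * g j) b a
  have hF'Y : ∀ Y : σ → Matrix (Fin n) (Fin n) K, spz Y F' =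
      ∑ j, FreeAlgebra.lift K Y (h j) b a * FreeAlgebra.lift K Y (w j * g j) b a := by
    intro Y
    rw [map_sum]
    apply Finset.sum_congr rfl
    intro j _
    rw [map_mul, hev, hev]
  have hF' : F' ≠ 0 := by
    obtain ⟨Z', hZ'⟩ := exists_entry hj₀ hab.symm
    have hns : ¬ SV n (∑ j, (FreeAlgebra.lift K Z' (w j * g j) b a) • h j) := by
      intro hcon
      exact hZ' (congrFun (hli _ hcon) j₀)
    obtain ⟨Z, hZ⟩ := exists_entry hns hab.symm
    let Y : σ → Matrix (Fin n) (Fin n) K := fun i => if i ∈ J then Z' i else Z i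
    have hYg : ∀ f ∈ SA K J, FreeAlgebra.lift K Y f = FreeAlgebra.lift K Z' f := fun f hf =>
      lift_congr J Y Z' (fun i hi => by simp [Y, hi]) f hf
    have hYh : ∀ j, FreeAlgebra.lift K Y (h j) = FreeAlgebra.lift K Z (h j) := fun j =>
      lift_congr Jᶜ Y Z (fun i hi => by
        have hi' : i ∉ J := hi
        simp [Y, hi']) (h j) (hh j)
    intro h0
    have h1 := hF'Y Y
    rw [h0, map_zero] at h1
    apply hZ
    rw [map_sum, Matrix.sum_apply, h1]
    apply Finset.sum_congr rfl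
    intro j _
    rw [map_smul, Matrix.smul_apply, smul_eq_mul, hYh, map_mul, map_mul, hYg _ (hw j),
      hYg _ (hg j), mul_comm]
  obtain ⟨x, hx⟩ : ∃ x : σ × Fin n × Fin n → K, MvPolynomial.eval x (F * F') ≠ 0 := by
    by_contra hcon
    push Not at hcon
    apply mul_ne_zero hF hF'
    apply MvPolynomial.funext
    intro x
    rw [hcon, map_zero]
  let Y : σ → Matrix (Fin n) (Fin n) K := fun i => Matrix.of fun b c => x (i, b, c)
  have hY : spz Y (F * F') ≠ 0 := by
    intro h0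
    apply hx
    simpa [spz, MvPolynomial.coe_aeval_eq_eval, Y] using h0
  rw [map_mul] at hY
  have hκ0 : spz Y F ≠ 0 := left_ne_zero_of_mul hY
  have hτ : spz Y F' ≠ 0 := right_ne_zero_of_mul hY
  rw [hF'Y] at hτ
  obtain ⟨hPD, hPE⟩ := hFY Y
  set κ := spz Y F with hκ
  rw [hlen] at hPD hPE
  have hgh := fun j =>
    (Dg_evA (a := a) (b := b) J Y (g j) (hg j)).mul (Dg_evB J hab Y (h j) (hh j))
  have hDj : ∀ j, Dg (2 * (k + 1)) (ev J a b Y (g j * h j * L.prod * w j)) := fun j => by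
    rw [map_mul, map_mul, map_mul]
    exact (((hgh j).mul hPD).mul (Dg_evA (a := a) (b := b) J Y (w j) (hw j))).mono (by omega)
  have hcj : ∀ j, cf (2 * (k + 1)) (ev J a b Y (g j * h j * L.prod * w j)) =
      -((FreeAlgebra.lift K Y (h j) b a * κ) • (FreeAlgebra.lift K Y (g j) *
        Matrix.single a b (1 : K) * FreeAlgebra.lift K Y (w j))) := fun j => by
    rw [map_mul, map_mul, map_mul]
    have h3 := cf_mul ((hgh j).mul hPD) (Dg_evA (a := a) (b := b) J Y (w j) (hw j))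
    rw [cf_mul (hgh j) hPD, cf_mul (Dg_evA (a := a) (b := b) J Y (g j) (hg j))
      (Dg_evB J hab Y (h j) (hh j)), cf_evA J Y (g j) (hg j), cf_evB J hab Y (h j) (hh j),
      cf_evA J Y (w j) (hw j)] at h3
    have h4 : 0 + 2 + 2 * k + 0 = 2 * (k + 1) := by ring
    rw [h4] at h3
    rw [h3, mul_neg, mul_smul_comm, neg_mul, smul_mul_assoc, mul_assoc (FreeAlgebra.lift K Y (g j)),
      hPE, neg_mul, smul_mul_assoc, mul_smul_comm, smul_mul_assoc, smul_smul]
  have hyD : y ∈ DS J Y a b (2 * k) := by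
    have h3 := (mul_le_mul' (A_le J Y) (BA_pow_le J hab Y k)).trans (DS_mul J Y 0 (2 * k))
    rw [zero_add] at h3
    exact h3 hy
  have hyD' : Dg (2 * k) (ev J a b Y y) := hyD
  have hD : Dg (2 * (k + 1)) (ev J a b Y (∑ j, g j * h j * L.prod * w j + y)) := by
    have h3 : ∑ j, g j * h j * L.prod * w j + y ∈ DS J Y a b (2 * (k + 1)) :=
      Submodule.add_mem _ (Submodule.sum_mem _ fun j _ => hDj j) (hyD'.mono (by omega))
    exact h3
  have hcf : cf (2 * (k + 1)) (ev J a b Y (∑ j, g j * h j * L.prod * w j + y)) = ∑ j,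
      -((FreeAlgebra.lift K Y (h j) b a * κ) • (FreeAlgebra.lift K Y (g j) *
        Matrix.single a b (1 : K) * FreeAlgebra.lift K Y (w j))) := by
    rw [map_add, map_sum, cf_add, hyD'.cf_eq_zero (by omega), add_zero]
    have h3 : ∀ s : Finset (Fin m), cf (2 * (k + 1))
        (∑ j ∈ s, ev J a b Y (g j * h j * L.prod * w j)) =
        ∑ j ∈ s, -((FreeAlgebra.lift K Y (h j) b a * κ) • (FreeAlgebra.lift K Y (g j) *
        Matrix.single a b (1 : K) * FreeAlgebra.lift K Y (w j))) := by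
      intro s
      induction s using Finset.induction_on with
      | empty => rw [Finset.sum_empty, Finset.sum_empty, cf_zero]
      | insert j s hj ih => rw [Finset.sum_insert hj, Finset.sum_insert hj, cf_add, hcj, ih]
    exact h3 Finset.univ
  set f := ∑ j, g j * h j * L.prod * w j + y with hf
  obtain ⟨c, hc⟩ := cf_scalar (M := ev J a b Y (f ^ ν)) (fun s => by
    unfold ev
    rw [evs_lift]
    exact hSV _) (2 * (k + 1) * ν) (by omega)
  rw [map_pow, cf_pow hD] at hc
  obtain ⟨u, hu, hu0⟩ : ∃ u : Fin n → K, u ≠ 0 ∧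
      ∀ j, ((FreeAlgebra.lift K Y (w j)).mulVec u) b = 0 := by
    let φ : (Fin n → K) →ₗ[K] (Fin m → K) := LinearMap.pi fun j =>
      (LinearMap.proj b).comp (Matrix.mulVecLin (FreeAlgebra.lift K Y (w j)))
    have hker : LinearMap.ker φ ≠ ⊥ := LinearMap.ker_ne_bot_of_finrank_lt (by simp; omega)
    obtain ⟨u, hu, hu0⟩ := Submodule.exists_mem_ne_zero_of_ne_bot hker
    exact ⟨u, hu0, fun j => congrFun hu j⟩
  have hEv : ∀ w : Fin n → K, w b = 0 → (Matrix.single a b (1 : K)).mulVec w = 0 := by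
    intro w hw
    ext i
    rw [Matrix.single_mulVec]
    simp [hw]
  have hLu : (cf (2 * (k + 1)) (ev J a b Y f)).mulVec u = 0 := by
    rw [hcf, Matrix.sum_mulVec]
    apply Finset.sum_eq_zero
    intro j _
    rw [Matrix.neg_mulVec, Matrix.smul_mulVec, ← Matrix.mulVec_mulVec, ← Matrix.mulVec_mulVec,
      hEv _ (hu0 j), Matrix.mulVec_zero, smul_zero, neg_zero]
  have h0 := mulVec_kernel hu hLu hν hc
  have htr : (cf (2 * (k + 1)) (ev J a b Y f)).trace =
      -(κ * ∑ j, FreeAlgebra.lift K Y (h j) b a * FreeAlgebra.lift K Y (w j * g j) b a) := by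
    rw [hcf, Matrix.trace_sum, Finset.mul_sum, ← Finset.sum_neg_distrib]
    apply Finset.sum_congr rfl
    intro j _
    rw [Matrix.trace_neg, Matrix.trace_smul, Matrix.trace_mul_comm, ← mul_assoc, ← map_mul,
      smul_eq_mul, Matrix.trace_mul_single]
    simp
    ring
  have h5 : IsNilpotent (cf (2 * (k + 1)) (ev J a b Y f)).trace :=
    Matrix.isNilpotent_trace_of_isNilpotent ⟨ν, h0⟩
  rw [htr] at h5
  exact mul_ne_zero hκ0 hτ (neg_eq_zero.1 h5.eq_zero)

end Pool.Agent.Y69.DV
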