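import Mathlib

/-!
# Values of noncommutative polynomials: conjugation and genericity
-/

set_option autoImplicit false
set_option linter.unusedSectionVars false

namespace Pool.Agent.Y69.DV

open Matrix

variable {K : Type*} [Field K] {σ : Type*} {n : ℕ}

lemma lift_map {B C : Type*} [CommRing B] [Algebra K B] [CommRing C] [Algebra K C]
    (φ : B →ₐ[K] C) (W : σ → Matrix (Fin n) (Fin n) B) (f : FreeAlgebra K σ) :
    φ.mapMatrix (FreeAlgebra.lift K W f) =
      FreeAlgebra.lift K (fun i => φ.mapMatrix (W i)) f := by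
  have h : φ.mapMatrix.comp (FreeAlgebra.lift K W) =
      FreeAlgebra.lift K (fun i => φ.mapMatrix (W i)) := by
    apply FreeAlgebra.hom_ext
    funext i
    simp
  rw [← h]
  rfl

/-- generic matrices -/
noncomputable def gen (K : Type*) [Field K] (σ : Type*) (n : ℕ) (i : σ) :
    Matrix (Fin n) (Fin n) (MvPolynomial (σ × Fin n × Fin n) K) :=
  Matrix.of fun b c => MvPolynomial.X (i, b, c)

/-- specialisation of the generic matrices -/
noncomputable def spz (W : σ → Matrix (Fin n) (Fin n) K) :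
    MvPolynomial (σ × Fin n × Fin n) K →ₐ[K] K := MvPolynomial.aeval (fun p => W p.1 p.2.1 p.2.2)

lemma spz_gen (W : σ → Matrix (Fin n) (Fin n) K) (f : FreeAlgebra K σ) :
    (spz W).mapMatrix (FreeAlgebra.lift K (gen K σ n) f) = FreeAlgebra.lift K W f := by
  rw [lift_map]
  congr 2
  funext i
  ext b c
  simp [gen, spz]

/-- all values are scalar matrices -/
def SV (n : ℕ) (f : FreeAlgebra K σ) : Prop :=
  ∀ X : σ → Matrix (Fin n) (Fin n) K, ∃ c : K, FreeAlgebra.lift K X f = Matrix.scalar (Fin n) c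

lemma lift_conj {B : Type*} [CommRing B] [Algebra K B] (Q Q' : Matrix (Fin n) (Fin n) B)
    (h : Q * Q' = 1) (h' : Q' * Q = 1) (X : σ → Matrix (Fin n) (Fin n) B) (p : FreeAlgebra K σ) :
    FreeAlgebra.lift K (fun i => Q * X i * Q') p = Q * FreeAlgebra.lift K X p * Q' := by
  induction p using FreeAlgebra.induction with
  | grade0 r =>
    rw [AlgHom.commutes, AlgHom.commutes, Algebra.algebraMap_eq_smul_one, mul_smul_comm,
      smul_mul_assoc, mul_one, h]
  | grade1 x => rw [FreeAlgebra.lift_ι_apply, FreeAlgebra.lift_ι_apply]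
  | mul a b ha hb =>
    rw [map_mul, map_mul, ha, hb]
    calc Q * (FreeAlgebra.lift K X) a * Q' * (Q * (FreeAlgebra.lift K X) b * Q')
        = Q * (FreeAlgebra.lift K X) a * (Q' * Q) * (FreeAlgebra.lift K X) b * Q' := by
          simp only [mul_assoc]
      _ = Q * ((FreeAlgebra.lift K X) a * (FreeAlgebra.lift K X) b) * Q' := by
          rw [h', mul_one]
          simp only [mul_assoc]
  | add a b ha hb => rw [map_add, map_add, ha, hb, mul_add, add_mul]

lemma exists_perm {a b c d : Fin n} (hab : a ≠ b) (hcd : c ≠ d) :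
    ∃ π : Equiv.Perm (Fin n), π a = c ∧ π b = d := by
  set π₁ := Equiv.swap a c with hπ₁
  have h1 : π₁ a = c := Equiv.swap_apply_left a c
  have h2 : π₁ b ≠ c := by
    intro h
    rw [← h1] at h
    exact hab (π₁.injective h).symm
  refine ⟨π₁.trans (Equiv.swap (π₁ b) d), ?_, ?_⟩
  · rw [Equiv.trans_apply, h1]
    exact Equiv.swap_apply_of_ne_of_ne h2.symm hcd
  · rw [Equiv.trans_apply]
    exact Equiv.swap_apply_left _ _

lemma offdiag_zero {A : Matrix (Fin n) (Fin n) K} {a b : Fin n} (hab : a ≠ b)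
    (h : ∀ Q Q' : Matrix (Fin n) (Fin n) K, Q * Q' = 1 → Q' * Q = 1 → (Q * A * Q') a b = 0)
    (c d : Fin n) (hcd : c ≠ d) : A c d = 0 := by
  obtain ⟨π, hπa, hπb⟩ := exists_perm hab hcd
  have h1 := h ((1 : Matrix (Fin n) (Fin n) K).submatrix π id)
    ((1 : Matrix (Fin n) (Fin n) K).submatrix id π) ?_ ?_
  · have h2 : (1 : Matrix (Fin n) (Fin n) K).submatrix π id * A *
        (1 : Matrix (Fin n) (Fin n) K).submatrix id π = A.submatrix π π := by
      ext i j
      simp [Matrix.mul_apply, Matrix.one_apply]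
    rw [h2, Matrix.submatrix_apply, hπa, hπb] at h1
    exact h1
  · ext i j
    simp [Matrix.mul_apply, Matrix.one_apply]
  · ext i j
    rw [Matrix.mul_apply]
    simp only [Matrix.submatrix_apply, id_eq, Matrix.one_apply]
    rw [← Equiv.sum_comp π.symm]
    simp [eq_comm]

lemma conj_entry {A : Matrix (Fin n) (Fin n) K} (hA : ¬ ∃ c : K, A = Matrix.scalar (Fin n) c)
    {a b : Fin n} (hab : a ≠ b) :
    ∃ Q Q' : Matrix (Fin n) (Fin n) K, Q * Q' = 1 ∧ Q' * Q = 1 ∧ (Q * A * Q') a b ≠ 0 := by
  by_contra hcon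
  push Not at hcon
  apply hA
  have h0 := offdiag_zero (A := A) hab hcon
  refine ⟨A a a, ?_⟩
  have hd : ∀ c d : Fin n, c ≠ d → A c c = A d d := by
    intro c d hcd
    have hT : (1 + Matrix.single c d (1 : K)) * (1 - Matrix.single c d (1 : K)) = 1 := by
      rw [add_mul, mul_sub, mul_sub, one_mul, one_mul, mul_one,
        Matrix.single_mul_single_of_ne _ _ _ _ hcd.symm]
      abel
    have hT' : (1 - Matrix.single c d (1 : K)) * (1 + Matrix.single c d (1 : K)) = 1 := by
      rw [sub_mul, mul_add, mul_add, one_mul, one_mul, mul_one,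
        Matrix.single_mul_single_of_ne _ _ _ _ hcd.symm]
      abel
    have h1 := offdiag_zero
      (A := (1 + Matrix.single c d (1 : K)) * A * (1 - Matrix.single c d (1 : K))) hab (by
        intro Q Q' hQ hQ'
        have h2 := hcon (Q * (1 + Matrix.single c d (1 : K)))
          ((1 - Matrix.single c d (1 : K)) * Q') ?_ ?_
        · rw [← h2]
          simp only [mul_assoc]
        · calc Q * (1 + Matrix.single c d (1 : K)) * ((1 - Matrix.single c d (1 : K)) * Q')
              = Q * ((1 + Matrix.single c d (1 : K)) * (1 - Matrix.single c d (1 : K))) * Q' := by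
                simp only [mul_assoc]
            _ = 1 := by rw [hT, mul_one, hQ]
        · calc (1 - Matrix.single c d (1 : K)) * Q' * (Q * (1 + Matrix.single c d (1 : K)))
              = (1 - Matrix.single c d (1 : K)) * (Q' * Q) * (1 + Matrix.single c d (1 : K)) := by
                simp only [mul_assoc]
            _ = 1 := by rw [hQ', mul_one, hT']) c d hcd
    have h3 : ((1 + Matrix.single c d (1 : K)) * A * (1 - Matrix.single c d (1 : K))) c d =
        A c d + A d d - A c c - A d c := by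
      rw [mul_sub, mul_one, add_mul, one_mul, add_mul, Matrix.sub_apply, Matrix.add_apply,
        Matrix.add_apply, Matrix.single_mul_apply_same, Matrix.mul_single_apply_same,
        Matrix.mul_single_apply_same, Matrix.single_mul_apply_same]
      ring
    rw [h3, h0 c d hcd, h0 d c hcd.symm, zero_add, sub_zero] at h1
    exact (sub_eq_zero.1 h1).symm
  ext i j
  rw [Matrix.scalar_apply, Matrix.diagonal_apply]
  by_cases hij : i = j
  · subst hij
    rw [if_pos rfl]
    by_cases hia : i = a
    · rw [hia]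
    · exact hd i a hia
  · rw [if_neg hij]
    exact h0 i j hij

lemma exists_entry {p : FreeAlgebra K σ} (hp : ¬ SV n p) {a b : Fin n} (hab : a ≠ b) :
    ∃ X : σ → Matrix (Fin n) (Fin n) K, FreeAlgebra.lift K X p a b ≠ 0 := by
  unfold SV at hp
  push Not at hp
  obtain ⟨X, hX⟩ := hp
  obtain ⟨Q, Q', h, h', hne⟩ := conj_entry (A := FreeAlgebra.lift K X p)
    (fun ⟨c, hc⟩ => hX c hc) hab
  refine ⟨fun i => Q * X i * Q', ?_⟩
  rw [lift_conj Q Q' h h']
  exact hne

lemma common [Infinite K] (L : List (FreeAlgebra K σ × Fin n × Fin n))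
    (h : ∀ p ∈ L, ∃ X : σ → Matrix (Fin n) (Fin n) K, FreeAlgebra.lift K X p.1 p.2.1 p.2.2 ≠ 0) :
    ∃ X : σ → Matrix (Fin n) (Fin n) K, ∀ p ∈ L, FreeAlgebra.lift K X p.1 p.2.1 p.2.2 ≠ 0 := by
  have hev : ∀ (p : FreeAlgebra K σ) (i j : Fin n) (X : σ → Matrix (Fin n) (Fin n) K),
      spz X (FreeAlgebra.lift K (gen K σ n) p i j) = FreeAlgebra.lift K X p i j := by
    intro p i j X
    rw [← spz_gen X p]
    rfl
  have hF : (L.map fun p => FreeAlgebra.lift K (gen K σ n) p.1 p.2.1 p.2.2).prod ≠ 0 := by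
    apply List.prod_ne_zero
    intro h0
    rw [List.mem_map] at h0
    obtain ⟨p, hp, hp0⟩ := h0
    obtain ⟨X, hX⟩ := h p hp
    apply hX
    rw [← hev, hp0, map_zero]
  obtain ⟨x, hx⟩ : ∃ x : σ × Fin n × Fin n → K, MvPolynomial.eval x
      (L.map fun p => FreeAlgebra.lift K (gen K σ n) p.1 p.2.1 p.2.2).prod ≠ 0 := by
    by_contra hcon
    push Not at hcon
    apply hF
    apply MvPolynomial.funext
    intro x
    rw [hcon, map_zero]
  refine ⟨fun i => Matrix.of fun b c => x (i, b, c), fun p hp h0 => hx ?_⟩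
  rw [map_list_prod, List.map_map]
  apply List.prod_eq_zero
  rw [List.mem_map]
  refine ⟨p, hp, ?_⟩
  rw [← hev] at h0
  simpa [spz, MvPolynomial.coe_aeval_eq_eval] using h0

end Pool.Agent.Y69.DV
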