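import Pool.Agent.Y69.DV.Core

/-!
# Polynomials with separated variables are not power-central
-/

set_option autoImplicit false
set_option linter.unusedSectionVars false

namespace Pool.Agent.Y69.DV

open Matrix Polynomial

variable {K : Type*} [Field K] {σ : Type*} {n : ℕ}

/-- the polynomials in the variables of `J` -/
noncomputable def SA (K : Type*) [Field K] {σ : Type*} (J : Set σ) :
    Submodule K (FreeAlgebra K σ) :=
  Subalgebra.toSubmodule (Algebra.adjoin K (FreeAlgebra.ι K '' J))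

/-- product of the products of the pairs of a list -/
noncomputable def PL (L : List (FreeAlgebra K σ × FreeAlgebra K σ)) : FreeAlgebra K σ :=
  (L.map fun p => p.1 * p.2).prod

lemma lift_congr {B : Type*} [CommRing B] [Algebra K B] (J : Set σ)
    (W W' : σ → Matrix (Fin n) (Fin n) B) (h : ∀ i ∈ J, W i = W' i) (f : FreeAlgebra K σ)
    (hf : f ∈ SA K J) : FreeAlgebra.lift K W f = FreeAlgebra.lift K W' f := by
  change f ∈ Algebra.adjoin K (FreeAlgebra.ι K '' J) at hf
  induction hf using Algebra.adjoin_induction with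
  | mem x hx =>
    obtain ⟨i, hi, rfl⟩ := hx
    rw [FreeAlgebra.lift_ι_apply, FreeAlgebra.lift_ι_apply, h i hi]
  | algebraMap r => rw [AlgHom.commutes, AlgHom.commutes]
  | add x y _ _ hx hy => rw [map_add, map_add, hx, hy]
  | mul x y _ _ hx hy => rw [map_mul, map_mul, hx, hy]

lemma lift_cst (Y : σ → Matrix (Fin n) (Fin n) K) (f : FreeAlgebra K σ) :
    FreeAlgebra.lift K (fun i => cst (Y i)) f = cst (FreeAlgebra.lift K Y f) :=
  (lift_map (Polynomial.CAlgHom : K →ₐ[K] K[X]) Y f).symm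

open Classical in
/-- the family: the variables outside `J` are conjugated -/
noncomputable def Wf (J : Set σ) (E E' : Matrix (Fin n) (Fin n) K)
    (Y : σ → Matrix (Fin n) (Fin n) K) (i : σ) : PMat K n :=
  if i ∈ J then Pp E' * cst (Y i) * Pm E' else Pp E * cst (Y i) * Pm E

lemma Wf_mem (J : Set σ) {E E' : Matrix (Fin n) (Fin n) K} (hE' : E' * E' = 0)
    (Y : σ → Matrix (Fin n) (Fin n) K) (g : FreeAlgebra K σ) (hg : g ∈ SA K J) :
    FreeAlgebra.lift K (Wf J E E' Y) g = Pp E' * cst (FreeAlgebra.lift K Y g) * Pm E' := by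
  rw [lift_congr J (Wf J E E' Y) (fun i => Pp E' * cst (Y i) * Pm E')
    (fun i hi => by unfold Wf; rw [if_pos hi]) g hg,
    lift_conj (Pp E') (Pm E') (Pp_mul_Pm hE') (Pm_mul_Pp hE'), lift_cst]

lemma Wf_not_mem (J : Set σ) {E E' : Matrix (Fin n) (Fin n) K} (hE : E * E = 0)
    (Y : σ → Matrix (Fin n) (Fin n) K) (h : FreeAlgebra K σ) (hh : h ∈ SA K Jᶜ) :
    FreeAlgebra.lift K (Wf J E E' Y) h = Pp E * cst (FreeAlgebra.lift K Y h) * Pm E := by
  rw [lift_congr Jᶜ (Wf J E E' Y) (fun i => Pp E * cst (Y i) * Pm E)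
    (fun i hi => by unfold Wf; rw [if_neg hi]) h hh,
    lift_conj (Pp E) (Pm E) (Pp_mul_Pm hE) (Pm_mul_Pp hE), lift_cst]

lemma Pp_zero : Pp (0 : Matrix (Fin n) (Fin n) K) = 1 := by
  have h0 : cst (0 : Matrix (Fin n) (Fin n) K) = 0 := by ext i j; simp [cst]
  rw [Pp, h0, smul_zero, add_zero]

lemma Pm_zero : Pm (0 : Matrix (Fin n) (Fin n) K) = 1 := by
  have h0 : cst (0 : Matrix (Fin n) (Fin n) K) = 0 := by ext i j; simp [cst]
  rw [Pm, h0, smul_zero, sub_zero]

lemma Wf_mem0 (J : Set σ) (E : Matrix (Fin n) (Fin n) K)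
    (Y : σ → Matrix (Fin n) (Fin n) K) (g : FreeAlgebra K σ) (hg : g ∈ SA K J) :
    FreeAlgebra.lift K (Wf J E 0 Y) g = cst (FreeAlgebra.lift K Y g) := by
  rw [Wf_mem J (mul_zero _) Y g hg, Pp_zero, Pm_zero, one_mul, mul_one]

lemma single_sq {a b : Fin n} (hab : a ≠ b) :
    Matrix.single a b (1 : K) * Matrix.single a b (1 : K) = 0 := by
  rw [Matrix.single_mul_single_of_ne _ _ _ _ hab.symm]

lemma EME (a b : Fin n) (M : Matrix (Fin n) (Fin n) K) :
    Matrix.single a b (1 : K) * M * Matrix.single a b (1 : K) =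
      M b a • Matrix.single a b (1 : K) := by
  rw [Matrix.single_mul_mul_single, Matrix.smul_single, one_mul, mul_one, smul_eq_mul, mul_one]

/-- the value at the family -/
noncomputable def ev (J : Set σ) (a b : Fin n) (Y : σ → Matrix (Fin n) (Fin n) K) :
    FreeAlgebra K σ →ₐ[K] PMat K n := FreeAlgebra.lift K (Wf J (Matrix.single a b 1) 0 Y)

section lead

variable (J : Set σ) {a b : Fin n} (hab : a ≠ b) (Y : σ → Matrix (Fin n) (Fin n) K)

lemma Dg_evA (g : FreeAlgebra K σ) (hg : g ∈ SA K J) : Dg 0 (ev J a b Y g) := by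
  unfold ev
  rw [Wf_mem0 J _ Y g hg]
  exact Dg.cst _

lemma cf_evA (g : FreeAlgebra K σ) (hg : g ∈ SA K J) :
    cf 0 (ev J a b Y g) = FreeAlgebra.lift K Y g := by
  unfold ev
  rw [Wf_mem0 J _ Y g hg]
  exact cf_cst _

include hab in
lemma Dg_evB (h : FreeAlgebra K σ) (hh : h ∈ SA K Jᶜ) : Dg 2 (ev J a b Y h) := by
  unfold ev
  rw [Wf_not_mem J (single_sq hab) Y h hh]
  exact Dg_conj _ _

include hab in
lemma cf_evB (h : FreeAlgebra K σ) (hh : h ∈ SA K Jᶜ) :
    cf 2 (ev J a b Y h) = -((FreeAlgebra.lift K Y h) b a • Matrix.single a b (1 : K)) := by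
  unfold ev
  rw [Wf_not_mem J (single_sq hab) Y h hh, cf_conj, EME]

/-- the polynomials with values of degree at most `d` -/
def DS (a b : Fin n) (d : ℕ) : Submodule K (FreeAlgebra K σ) where
  carrier := {x | Dg d (ev J a b Y x)}
  add_mem' := fun {x y} hx hy => by
    show Dg d (ev J a b Y (x + y))
    rw [map_add]
    exact Dg.add hx hy
  zero_mem' := by
    show Dg d (ev J a b Y 0)
    rw [map_zero]
    exact Dg.zero d
  smul_mem' := fun c x hx => by
    show Dg d (ev J a b Y (c • x))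
    rw [map_smul]
    exact Dg.smul c hx

/-- the polynomials with values of degree at most `d` and top coefficient in `E M_n(K)` -/
def RS (a b : Fin n) (d : ℕ) : Submodule K (FreeAlgebra K σ) where
  carrier := {x | Dg d (ev J a b Y x) ∧
    ∃ M : Matrix (Fin n) (Fin n) K, cf d (ev J a b Y x) = Matrix.single a b (1 : K) * M}
  add_mem' := fun {x y} hx hy => by
    obtain ⟨hx, M, hM⟩ := hx
    obtain ⟨hy, N, hN⟩ := hy
    refine ⟨?_, M + N, ?_⟩
    · rw [map_add]
      exact Dg.add hx hy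
    · rw [map_add, cf_add, hM, hN, mul_add]
  zero_mem' := by
    refine ⟨?_, 0, ?_⟩
    · rw [map_zero]
      exact Dg.zero d
    · rw [map_zero, cf_zero, mul_zero]
  smul_mem' := fun c x hx => by
    obtain ⟨hx, M, hM⟩ := hx
    refine ⟨?_, c • M, ?_⟩
    · rw [map_smul]
      exact Dg.smul c hx
    · rw [map_smul, cf_smul, hM, mul_smul_comm]

lemma DS_mul (d e : ℕ) : DS J Y a b d * DS J Y a b e ≤ DS J Y a b (d + e) := by
  rw [Submodule.mul_le]
  intro x hx y hy
  show Dg (d + e) (ev J a b Y (x * y))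
  rw [map_mul]
  exact Dg.mul hx hy

lemma RS_mul (d e : ℕ) : RS J Y a b d * DS J Y a b e ≤ RS J Y a b (d + e) := by
  rw [Submodule.mul_le]
  intro x hx y hy
  obtain ⟨hx, M, hM⟩ := hx
  refine ⟨?_, M * cf e (ev J a b Y y), ?_⟩
  · rw [map_mul]
    exact Dg.mul hx hy
  · rw [map_mul, cf_mul hx hy, hM, mul_assoc]

lemma DS_le_RS {d e : ℕ} (h : d < e) : DS J Y a b d ≤ RS J Y a b e := by
  intro x hx
  exact ⟨Dg.mono hx h.le, 0, by rw [Dg.cf_eq_zero hx h, mul_zero]⟩

lemma A_le : SA K J ≤ DS J Y a b 0 := fun g hg => Dg_evA J Y g hg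

include hab in
lemma B_le : SA K Jᶜ ≤ DS J Y a b 2 := fun h hh => Dg_evB J hab Y h hh

include hab in
lemma B_le' : SA K Jᶜ ≤ RS J Y a b 2 := fun h hh =>
  ⟨Dg_evB J hab Y h hh, -((FreeAlgebra.lift K Y h) b a • (1 : Matrix (Fin n) (Fin n) K)), by
    rw [cf_evB J hab Y h hh, mul_neg, mul_smul_comm, mul_one]⟩

include hab in
lemma BA_le : SA K Jᶜ * SA K J ≤ DS J Y a b 2 :=
  (mul_le_mul' (B_le J hab Y) (A_le J Y)).trans (DS_mul J Y 2 0)

include hab in
lemma BA_le' : SA K Jᶜ * SA K J ≤ RS J Y a b 2 :=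
  (mul_le_mul' (B_le' J hab Y) (A_le J Y)).trans (RS_mul J Y 2 0)

include hab in
lemma BA_pow_le (k : ℕ) : (SA K Jᶜ * SA K J) ^ k ≤ DS J Y a b (2 * k) := by
  induction k with
  | zero =>
    rw [pow_zero, mul_zero]
    intro x hx
    obtain ⟨c, rfl⟩ := Submodule.mem_one.1 hx
    exact A_le J Y (Subalgebra.algebraMap_mem _ _)
  | succ k ih =>
    rw [pow_succ]
    exact (mul_le_mul' ih (BA_le J hab Y)).trans (DS_mul J Y (2 * k) 2)

include hab in
lemma top_le (k : ℕ) : (SA K Jᶜ * SA K J) ^ (k + 1) ⊔ SA K J * (SA K Jᶜ * SA K J) ^ k ≤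
    RS J Y a b (2 * (k + 1)) := by
  apply sup_le
  · rw [pow_succ']
    have h := (mul_le_mul' (BA_le' J hab Y) (BA_pow_le J hab Y k)).trans
      (RS_mul J Y 2 (2 * k))
    have h2 : 2 + 2 * k = 2 * (k + 1) := by ring
    rw [h2] at h
    exact h
  · have h := (mul_le_mul' (A_le J Y) (BA_pow_le J hab Y k)).trans
      (DS_mul J Y 0 (2 * k))
    rw [zero_add] at h
    exact h.trans (DS_le_RS J Y (by omega))

include hab in
/-- products -/
lemma lead_gh (L : List (FreeAlgebra K σ × FreeAlgebra K σ))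
    (hL : ∀ p ∈ L, p.1 ∈ SA K J ∧ p.2 ∈ SA K Jᶜ) :
    Dg (2 * L.length) (ev J a b Y (PL L)) ∧
    (∃ κ : K, ((∀ p ∈ L, FreeAlgebra.lift K Y p.1 b a ≠ 0 ∧ FreeAlgebra.lift K Y p.2 b a ≠ 0) →
      κ ≠ 0) ∧ Matrix.single a b (1 : K) * cf (2 * L.length) (ev J a b Y (PL L)) =
        κ • Matrix.single a b (1 : K)) ∧
    (L ≠ [] → ∃ M : Matrix (Fin n) (Fin n) K,
      cf (2 * L.length) (ev J a b Y (PL L)) = M * Matrix.single a b (1 : K)) := by
  induction L with
  | nil =>
    have h0 : ev J a b Y (PL []) = 1 := by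
      simp [PL]
    rw [h0]
    refine ⟨Dg.one, ⟨1, fun _ => one_ne_zero, ?_⟩, fun h => absurd rfl h⟩
    show Matrix.single a b (1 : K) * cf 0 1 = _
    rw [cf_one, mul_one, one_smul]
  | cons p L ih =>
    obtain ⟨hD, ⟨κ, hκ, hE⟩, hM⟩ := ih fun q hq => hL q (List.mem_cons_of_mem _ hq)
    obtain ⟨h1, h2⟩ := hL p List.mem_cons_self
    have hPL : PL (p :: L) = p.1 * p.2 * PL L := by simp [PL]
    have hev : ev J a b Y (PL (p :: L)) =
        ev J a b Y p.1 * ev J a b Y p.2 * ev J a b Y (PL L) := by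
      rw [hPL, map_mul, map_mul]
    have hlen : 2 * (p :: L).length = 0 + 2 + 2 * L.length := by
      rw [List.length_cons]; ring
    have hD12 := (Dg_evA (a := a) (b := b) J Y p.1 h1).mul (Dg_evB J hab Y p.2 h2)
    have hcf : cf (0 + 2 + 2 * L.length) (ev J a b Y (PL (p :: L))) =
        FreeAlgebra.lift K Y p.1 * -(FreeAlgebra.lift K Y p.2 b a • Matrix.single a b (1 : K)) *
          cf (2 * L.length) (ev J a b Y (PL L)) := by
      rw [hev, cf_mul hD12 hD, cf_mul (Dg_evA (a := a) (b := b) J Y p.1 h1)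
        (Dg_evB J hab Y p.2 h2), cf_evA J Y p.1 h1, cf_evB J hab Y p.2 h2]
    rw [hlen]
    refine ⟨?_, ⟨-(FreeAlgebra.lift K Y p.2 b a * FreeAlgebra.lift K Y p.1 b a * κ), ?_, ?_⟩, ?_⟩
    · rw [hev]
      exact hD12.mul hD
    · intro h
      have h3 := h p List.mem_cons_self
      exact neg_ne_zero.2 (mul_ne_zero (mul_ne_zero h3.2 h3.1)
        (hκ fun q hq => h q (List.mem_cons_of_mem _ hq)))
    · rw [hcf, mul_neg, mul_smul_comm, neg_mul, smul_mul_assoc, mul_neg, mul_smul_comm,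
        ← mul_assoc, ← mul_assoc, EME, smul_mul_assoc, hE, smul_smul, smul_smul, neg_smul]
    · intro _
      by_cases hLn : L = []
      · subst hLn
        have h0 : ev J a b Y (PL []) = 1 := by
          simp [PL]
        refine ⟨-(FreeAlgebra.lift K Y p.2 b a • FreeAlgebra.lift K Y p.1), ?_⟩
        rw [hcf, h0]
        show _ * _ * cf 0 1 = _
        rw [cf_one, mul_one, mul_neg, mul_smul_comm, neg_mul, smul_mul_assoc]
      · obtain ⟨M, hM⟩ := hM hLn
        refine ⟨FreeAlgebra.lift K Y p.1 *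
          -(FreeAlgebra.lift K Y p.2 b a • Matrix.single a b (1 : K)) * M, ?_⟩
        rw [hcf, hM]
        simp only [mul_assoc]

end lead

lemma mulVec_kernel {L : Matrix (Fin n) (Fin n) K} {u : Fin n → K} (hu : u ≠ 0)
    (hLu : L.mulVec u = 0) {ν : ℕ} (hν : ν ≠ 0) {c : K} (h : L ^ ν = Matrix.scalar (Fin n) c) :
    L ^ ν = 0 := by
  have h1 : (L ^ ν).mulVec u = 0 := by
    obtain ⟨m, rfl⟩ := Nat.exists_eq_succ_of_ne_zero hν
    rw [pow_succ, ← Matrix.mulVec_mulVec, hLu, Matrix.mulVec_zero]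
  have h2 : c = 0 := by
    rw [h] at h1
    by_contra hc
    apply hu
    have h3 : (Matrix.scalar (Fin n) c).mulVec u = c • u := by
      ext i
      simp [Matrix.mulVec_diagonal]
    rw [h3] at h1
    exact (smul_eq_zero.1 h1).resolve_left hc
  rw [h, h2]
  ext i j
  simp

/-- the criterion -/
theorem key [Infinite K] (hn : 3 ≤ n) (J : Set σ) {a b : Fin n} (hab : a ≠ b)
    (Y : σ → Matrix (Fin n) (Fin n) K) (d : ℕ) (x : FreeAlgebra K σ)
    (hx : Dg d (ev J a b Y x)) (κ : K) (hκ : κ ≠ 0)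
    (h1 : Matrix.single a b (1 : K) * cf d (ev J a b Y x) = κ • Matrix.single a b (1 : K))
    (h2 : ∃ M : Matrix (Fin n) (Fin n) K, cf d (ev J a b Y x) = M * Matrix.single a b (1 : K))
    (y : FreeAlgebra K σ) (hy : y ∈ RS J Y a b d) (ν : ℕ) (hν : ν ≠ 0) :
    ¬ SV n ((x + y) ^ ν) := by
  intro hSV
  obtain ⟨M1, hM1⟩ := h2
  obtain ⟨hyD, M2, hM2⟩ := hy
  have hD : Dg d (ev J a b Y (x + y)) := by
    rw [map_add]; exact hx.add hyD
  have hL : cf d (ev J a b Y (x + y)) = M1 * Matrix.single a b (1 : K) +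
      Matrix.single a b (1 : K) * M2 := by
    rw [map_add, cf_add, hM1, hM2]
  obtain ⟨c, hc⟩ := cf_scalar (M := ev J a b Y ((x + y) ^ ν)) (fun s => by
    unfold ev
    rw [evs_lift]
    exact hSV _) (d * ν) (by omega)
  rw [map_pow, cf_pow hD] at hc
  -- a vector in the kernel
  obtain ⟨u, hu, hu0, hu1⟩ : ∃ u : Fin n → K, u ≠ 0 ∧ u b = 0 ∧ (M2.mulVec u) b = 0 := by
    let φ : (Fin n → K) →ₗ[K] K × K := LinearMap.prod (LinearMap.proj b)
      ((LinearMap.proj b).comp (Matrix.mulVecLin M2))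
    have hker : LinearMap.ker φ ≠ ⊥ := LinearMap.ker_ne_bot_of_finrank_lt (by simp; omega)
    obtain ⟨u, hu, hu0⟩ := Submodule.exists_mem_ne_zero_of_ne_bot hker
    have h3 : φ u = 0 := hu
    exact ⟨u, hu0, congrArg Prod.fst h3, congrArg Prod.snd h3⟩
  have hEv : ∀ w : Fin n → K, w b = 0 → (Matrix.single a b (1 : K)).mulVec w = 0 := by
    intro w hw
    ext i
    rw [Matrix.single_mulVec]
    simp [hw]
  have hLu : (cf d (ev J a b Y (x + y))).mulVec u = 0 := by
    rw [hL, Matrix.add_mulVec, ← Matrix.mulVec_mulVec, ← Matrix.mulVec_mulVec, hEv u hu0,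
      hEv _ hu1, Matrix.mulVec_zero, add_zero]
  have h0 := mulVec_kernel hu hLu hν hc
  have hEL : Matrix.single a b (1 : K) * cf d (ev J a b Y (x + y)) =
      κ • Matrix.single a b (1 : K) := by
    rw [map_add, cf_add, mul_add, h1, hM2, ← mul_assoc, single_sq hab, zero_mul, add_zero]
  have hpow : ∀ m : ℕ, Matrix.single a b (1 : K) * cf d (ev J a b Y (x + y)) ^ m =
      κ ^ m • Matrix.single a b (1 : K) := by
    intro m
    induction m with
    | zero => rw [pow_zero, pow_zero, mul_one, one_smul]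
    | succ m ih =>
      rw [pow_succ, ← mul_assoc, ih, smul_mul_assoc, hEL, smul_smul, pow_succ]
  have h4 := hpow ν
  rw [h0, mul_zero] at h4
  have h5 := congrFun (congrFun h4 a) b
  simp only [Matrix.zero_apply, Matrix.smul_apply, Matrix.single_apply_same, smul_eq_mul,
    mul_one] at h5
  exact pow_ne_zero ν hκ h5.symm

end Pool.Agent.Y69.DV
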