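import Pool.Agent.Y69.DV.Block

/-!
# One block of other variables: classification
-/

set_option autoImplicit false
set_option linter.unusedSectionVars false
set_option linter.unusedSimpArgs false

namespace Pool.Agent.Y69.DV

open Matrix Polynomial

variable {K : Type*} [Field K] {σ : Type*} {n : ℕ}

/-- sums of `x ^ i h x ^ j` -/
noncomputable def BS (K : Type*) [Field K] {σ : Type*} (x : σ) : Submodule K (FreeAlgebra K σ) where
  carrier := {f | ∃ h : (ℕ × ℕ) →₀ FreeAlgebra K σ, (∀ p, h p ∈ SA K ({x} : Set σ)ᶜ) ∧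
    f = h.sum fun p b => FreeAlgebra.ι K x ^ p.1 * b * FreeAlgebra.ι K x ^ p.2}
  add_mem' := by
    rintro f g ⟨h, h1, rfl⟩ ⟨h', h2, rfl⟩
    refine ⟨h + h', fun p => Submodule.add_mem _ (h1 p) (h2 p), ?_⟩
    rw [Finsupp.sum_add_index']
    · intro p
      rw [mul_zero, zero_mul]
    · intro p b b'
      rw [mul_add, add_mul]
  zero_mem' := ⟨0, fun p => Submodule.zero_mem _, by rw [Finsupp.sum_zero_index]⟩
  smul_mem' := by
    rintro c f ⟨h, h1, rfl⟩
    refine ⟨c • h, fun p => Submodule.smul_mem _ c (h1 p), ?_⟩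
    rw [Finsupp.sum_smul_index' (fun p => by rw [mul_zero, zero_mul]), Finsupp.smul_sum]
    apply Finsupp.sum_congr
    intro p _
    rw [mul_smul_comm, smul_mul_assoc]

lemma BS_single (x : σ) (i j : ℕ) (b : FreeAlgebra K σ) (hb : b ∈ SA K ({x} : Set σ)ᶜ) :
    FreeAlgebra.ι K x ^ i * b * FreeAlgebra.ι K x ^ j ∈ BS K x := by
  classical
  refine ⟨Finsupp.single (i, j) b, fun p => ?_, ?_⟩
  · rw [Finsupp.single_apply]
    split_ifs
    · exact hb
    · exact Submodule.zero_mem _
  · rw [Finsupp.sum_single_index (by rw [mul_zero, zero_mul])]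

lemma SA_singleton (x : σ) (u : FreeAlgebra K σ) (hu : u ∈ SA K ({x} : Set σ)) :
    ∃ q : K[X], u = ∑ i ∈ Finset.range (q.natDegree + 1), q.coeff i • FreeAlgebra.ι K x ^ i := by
  change u ∈ Algebra.adjoin K (FreeAlgebra.ι K '' {x}) at hu
  rw [Set.image_singleton, Algebra.adjoin_singleton_eq_range_aeval] at hu
  obtain ⟨q, rfl⟩ := hu
  exact ⟨q, Polynomial.aeval_eq_sum_range _⟩

lemma rep_le (x : σ) : SA K ({x} : Set σ) * SA K ({x} : Set σ)ᶜ * SA K ({x} : Set σ) ≤ BS K x := by
  rw [Submodule.mul_le]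
  intro m hm w hw
  induction hm using Submodule.mul_induction_on' with
  | mem_mul_mem u hu b hb =>
    obtain ⟨q, rfl⟩ := SA_singleton x u hu
    obtain ⟨q', rfl⟩ := SA_singleton x w hw
    rw [Finset.sum_mul, Finset.sum_mul]
    refine Submodule.sum_mem _ fun i _ => ?_
    rw [Finset.mul_sum]
    refine Submodule.sum_mem _ fun j _ => ?_
    rw [smul_mul_assoc, smul_mul_assoc, mul_smul_comm]
    exact Submodule.smul_mem _ _ (Submodule.smul_mem _ _ (BS_single x i j b hb))
  | add u _ v _ hu hv =>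
    rw [add_mul]
    exact Submodule.add_mem _ hu hv

lemma scalar_eq_smul (c : K) : Matrix.scalar (Fin n) c = c • (1 : Matrix (Fin n) (Fin n) K) := by
  ext i j
  rw [Matrix.scalar_apply, Matrix.diagonal_apply, Matrix.smul_apply, Matrix.one_apply]
  split_ifs <;> simp

lemma cst_smul (c : K) (A : Matrix (Fin n) (Fin n) K) : cst (c • A) = (Polynomial.C c) • cst A := by
  ext i j
  simp [cst]

lemma cst_one : cst (1 : Matrix (Fin n) (Fin n) K) = 1 := by
  ext i j
  simp only [cst, Matrix.map_apply, Matrix.one_apply]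
  split_ifs <;> simp

lemma cst_add (A B : Matrix (Fin n) (Fin n) K) : cst (A + B) = cst A + cst B := by
  ext i j
  simp [cst]

lemma cst_zero : cst (0 : Matrix (Fin n) (Fin n) K) = 0 := by
  ext i j
  simp [cst]

lemma q_conj (x : σ) (T : Finset (ℕ × ℕ)) (h : ℕ × ℕ → FreeAlgebra K σ)
    (hh : ∀ p, h p ∈ SA K ({x} : Set σ)ᶜ) (hT : ∀ p ∈ T, SV n (h p))
    (E E' : Matrix (Fin n) (Fin n) K) (hE : E * E = 0) (hE' : E' * E' = 0)
    (Y : σ → Matrix (Fin n) (Fin n) K) :
    FreeAlgebra.lift K (Wf {x} E E' Y)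
      (∑ p ∈ T, FreeAlgebra.ι K x ^ p.1 * h p * FreeAlgebra.ι K x ^ p.2) =
    Pp E' * cst (FreeAlgebra.lift K Y
      (∑ p ∈ T, FreeAlgebra.ι K x ^ p.1 * h p * FreeAlgebra.ι K x ^ p.2)) * Pm E' := by
  classical
  have hxi : ∀ i : ℕ, FreeAlgebra.ι K x ^ i ∈ SA K ({x} : Set σ) := fun i =>
    Subalgebra.pow_mem _ (Algebra.subset_adjoin (Set.mem_image_of_mem (FreeAlgebra.ι K)
      (Set.mem_singleton x))) i
  have hterm : ∀ p ∈ T, FreeAlgebra.lift K (Wf {x} E E' Y)
      (FreeAlgebra.ι K x ^ p.1 * h p * FreeAlgebra.ι K x ^ p.2) =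
      Pp E' * cst (FreeAlgebra.lift K Y
        (FreeAlgebra.ι K x ^ p.1 * h p * FreeAlgebra.ι K x ^ p.2)) * Pm E' := by
    intro p hp
    obtain ⟨c, hc⟩ := hT p hp Y
    rw [map_mul, map_mul, Wf_mem _ hE' Y _ (hxi p.1), Wf_mem _ hE' Y _ (hxi p.2),
      Wf_not_mem _ hE Y _ (hh p), map_mul, map_mul, hc, scalar_eq_smul, cst_smul, cst_one,
      mul_smul_comm, mul_one, smul_mul_assoc, Pp_mul_Pm hE, mul_smul_comm, mul_one,
      smul_mul_assoc, mul_smul_comm, mul_one, smul_mul_assoc, cst_smul, cst_mul,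
      mul_smul_comm, smul_mul_assoc]
    congr 1
    calc Pp E' * cst (FreeAlgebra.lift K Y (FreeAlgebra.ι K x ^ p.1)) * Pm E' *
          (Pp E' * cst (FreeAlgebra.lift K Y (FreeAlgebra.ι K x ^ p.2)) * Pm E')
        = Pp E' * cst (FreeAlgebra.lift K Y (FreeAlgebra.ι K x ^ p.1)) * (Pm E' * Pp E') *
          cst (FreeAlgebra.lift K Y (FreeAlgebra.ι K x ^ p.2)) * Pm E' := by
          simp only [mul_assoc]
      _ = _ := by
          rw [Pm_mul_Pp hE', mul_one]
          simp only [mul_assoc]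
  induction T using Finset.induction_on with
  | empty => rw [Finset.sum_empty, map_zero, map_zero, cst_zero, mul_zero, zero_mul]
  | insert p T hp ih =>
    rw [Finset.sum_insert hp, map_add, map_add, cst_add, mul_add, add_mul,
      hterm p (Finset.mem_insert_self p T),
      ih (fun q hq => hT q (Finset.mem_insert_of_mem hq))
        (fun q hq => hterm q (Finset.mem_insert_of_mem hq))]

lemma all_scalar [Infinite K] [DecidableEq σ] (hn : 2 ≤ n) (x : σ) (T : Finset (ℕ × ℕ))
    (h : ℕ × ℕ → FreeAlgebra K σ) (hh : ∀ p, h p ∈ SA K ({x} : Set σ)ᶜ)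
    (hT : ∀ p ∈ T, SV n (h p)) (ν : ℕ) (hν : ν ≠ 0)
    (hSV : SV n ((∑ p ∈ T, FreeAlgebra.ι K x ^ p.1 * h p * FreeAlgebra.ι K x ^ p.2) ^ ν)) :
    ∀ (Y : σ → Matrix (Fin n) (Fin n) K) (M : Matrix (Fin n) (Fin n) K),
      FreeAlgebra.lift K (Function.update Y x M)
        (∑ p ∈ T, FreeAlgebra.ι K x ^ p.1 * h p * FreeAlgebra.ι K x ^ p.2) =
      FreeAlgebra.lift K Y
        (∑ p ∈ T, FreeAlgebra.ι K x ^ p.1 * h p * FreeAlgebra.ι K x ^ p.2) := by
  classical
  intro Y M₀
  have hz : ∀ p : ℕ × ℕ, ∃ c : K, p ∈ T → FreeAlgebra.lift K Y (h p) = Matrix.scalar (Fin n) c := by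
    intro p
    by_cases hp : p ∈ T
    · obtain ⟨c, hc⟩ := hT p hp Y
      exact ⟨c, fun _ => hc⟩
    · exact ⟨0, fun h => absurd h hp⟩
  choose z hz using hz
  let q : K[X] := ∑ p ∈ T, Polynomial.C (z p) * Polynomial.X ^ (p.1 + p.2)
  have hq : ∀ M : Matrix (Fin n) (Fin n) K, FreeAlgebra.lift K (Function.update Y x M)
      (∑ p ∈ T, FreeAlgebra.ι K x ^ p.1 * h p * FreeAlgebra.ι K x ^ p.2) =
      Polynomial.aeval M q := by
    intro M
    rw [map_sum, map_sum]
    apply Finset.sum_congr rfl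
    intro p hp
    rw [map_mul, map_mul, map_pow, map_pow, FreeAlgebra.lift_ι_apply, Function.update_self,
      lift_congr _ (Function.update Y x M) Y (fun i hi => Function.update_of_ne hi _ _) (h p) (hh p),
      hz p hp, scalar_eq_smul, mul_smul_comm, mul_one, smul_mul_assoc, ← pow_add, map_mul,
      Polynomial.aeval_C, map_pow, Polynomial.aeval_X, Algebra.algebraMap_eq_smul_one,
      smul_mul_assoc, one_mul]
  let a : Fin n := ⟨0, by omega⟩
  let b : Fin n := ⟨1, by omega⟩
  have hab : a ≠ b := by simp [a, b]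
  have hst : ∀ s t : K, (q.eval s) ^ ν = (q.eval t) ^ ν := by
    intro s t
    let d : Fin n → K := fun i => if i = a then s else t
    obtain ⟨c, hc⟩ := hSV (Function.update Y x (Matrix.diagonal d))
    rw [map_pow, hq] at hc
    have h1 : Polynomial.aeval (Matrix.diagonal d) q =
        Matrix.diagonal fun i => q.eval (d i) := by
      have h2 := Polynomial.aeval_algHom_apply (Matrix.diagonalAlgHom K (n := Fin n) (α := K)) d q
      rw [Matrix.diagonalAlgHom_apply, Matrix.diagonalAlgHom_apply] at h2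
      rw [h2]
      congr 1
      funext i
      rw [Polynomial.aeval_fn_apply]
      simp
    rw [h1, Matrix.diagonal_pow, Matrix.scalar_apply, Matrix.diagonal_eq_diagonal_iff] at hc
    have ha := hc a
    have hb := hc b
    simp only [Pi.pow_apply, d, if_true, if_neg hab.symm] at ha hb
    rw [ha, hb]
  have hqp : q ^ ν = Polynomial.C ((q.eval 0) ^ ν) := by
    apply Polynomial.funext
    intro s
    rw [Polynomial.eval_pow, Polynomial.eval_C, hst s 0]
  have hdeg : q.natDegree = 0 := by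
    have h1 := congrArg Polynomial.natDegree hqp
    rw [Polynomial.natDegree_pow, Polynomial.natDegree_C] at h1
    exact (mul_eq_zero.1 h1).resolve_left hν
  rw [Polynomial.natDegree_eq_zero] at hdeg
  obtain ⟨c, hc⟩ := hdeg
  have h2 := hq (Y x)
  rw [Function.update_eq_self, ← hc, Polynomial.aeval_C] at h2
  rw [h2, hq, ← hc, Polynomial.aeval_C]

/-- one block of other variables -/
theorem one_block [Infinite K] (hn : 3 ≤ n) (x : σ) (f : FreeAlgebra K σ)
    (hf : f ∈ SA K ({x} : Set σ) * SA K ({x} : Set σ)ᶜ * SA K ({x} : Set σ))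
    (ν : ℕ) (hν : ν ≠ 0) (hSV : SV n (f ^ ν)) (X X' : σ → Matrix (Fin n) (Fin n) K)
    (hX : ∀ i, i ≠ x → X i = X' i) : FreeAlgebra.lift K X f = FreeAlgebra.lift K X' f := by
  classical
  have hup : X = Function.update X' x (X x) := by
    funext i
    by_cases hi : i = x
    · subst hi
      rw [Function.update_self]
    · rw [Function.update_of_ne hi, hX i hi]
  rw [hup]
  obtain ⟨h, hh, hfs⟩ := rep_le x hf
  unfold Finsupp.sum at hfs
  set S := h.support with hS
  rw [hfs] at hSV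
  have hz := block_main hn x S h hh ν hν hSV
  by_cases h00 : (0, 0) ∈ S
  · have hsplit : ∑ p ∈ S, FreeAlgebra.ι K x ^ p.1 * h p * FreeAlgebra.ι K x ^ p.2 =
        ∑ p ∈ S.erase (0, 0), FreeAlgebra.ι K x ^ p.1 * h p * FreeAlgebra.ι K x ^ p.2 +
          h (0, 0) := by
      rw [← Finset.add_sum_erase S _ h00, pow_zero, one_mul, mul_one, add_comm]
    have hz' : ∀ p ∈ S.erase (0, 0), SV n (h p) := fun p hp =>
      hz p (Finset.mem_of_mem_erase hp) (Finset.ne_of_mem_erase hp)
    by_cases hq : SV n (∑ p ∈ S.erase (0, 0),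
        FreeAlgebra.ι K x ^ p.1 * h p * FreeAlgebra.ι K x ^ p.2)
    · rw [hfs, hsplit, map_add, map_add, all_scalar (by omega) x _ h hh hz' 1 one_ne_zero
        (by rw [pow_one]; exact hq) X' (X x), lift_congr _ (Function.update X' x (X x)) X'
          (fun i hi => Function.update_of_ne hi _ _) (h (0, 0)) (hh _)]
    · by_cases hh0 : SV n (h (0, 0))
      · rw [hfs]
        apply all_scalar (by omega) x S h hh _ ν hν hSV
        intro p hp
        by_cases hp0 : p = (0, 0)
        · rw [hp0]; exact hh0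
        · exact hz p hp hp0
      · exfalso
        rw [hsplit] at hSV
        exact separated_gen hn {x} _ (h (0, 0))
          (fun E E' hE hE' Y => q_conj x _ h hh hz' E E' hE hE' Y) (hh _) hq hh0 ν hν hSV
  · rw [hfs]
    apply all_scalar (by omega) x S h hh _ ν hν hSV
    intro p hp
    exact hz p hp (by rintro rfl; exact h00 hp)

end Pool.Agent.Y69.DV
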