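import Pool.Agent.Y69.DV.Thms

/-!
# Products of polynomials with a leading part
-/

set_option autoImplicit false
set_option linter.unusedSectionVars false
set_option linter.unusedSimpArgs false

namespace Pool.Agent.Y69.DV

open Matrix Polynomial

variable {K : Type*} [Field K] {σ : Type*} {n : ℕ}

/-- the top coefficient of the value is `M₁ E + E M₂` with `E M₁ E = κ E` -/
def PP (J : Set σ) (Y : σ → Matrix (Fin n) (Fin n) K) (a b : Fin n) (d : ℕ) (κ : K)
    (x : FreeAlgebra K σ) : Prop :=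
  Dg d (ev J a b Y x) ∧ ∃ M₁ M₂ : Matrix (Fin n) (Fin n) K,
    cf d (ev J a b Y x) = M₁ * Matrix.single a b (1 : K) + Matrix.single a b (1 : K) * M₂ ∧
    Matrix.single a b (1 : K) * M₁ * Matrix.single a b (1 : K) = κ • Matrix.single a b (1 : K)

lemma PP.mul {J : Set σ} {Y : σ → Matrix (Fin n) (Fin n) K} {a b : Fin n} (hab : a ≠ b)
    {d e : ℕ} {κ κ' : K} {x x' : FreeAlgebra K σ} (h : PP J Y a b d κ x)
    (h' : PP J Y a b e κ' x') : PP J Y a b (d + e) (κ' * κ) (x * x') := by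
  obtain ⟨hD, M₁, M₂, h1, h2⟩ := h
  obtain ⟨hD', N₁, N₂, h3, h4⟩ := h'
  refine ⟨?_, κ' • M₁, M₂ * N₁ * Matrix.single a b (1 : K) + M₂ * Matrix.single a b (1 : K) * N₂,
    ?_, ?_⟩
  · rw [map_mul]
    exact hD.mul hD'
  · rw [map_mul, cf_mul hD hD', h1, h3]
    have h5 : (M₁ * Matrix.single a b (1 : K) + Matrix.single a b (1 : K) * M₂) *
        (N₁ * Matrix.single a b (1 : K) + Matrix.single a b (1 : K) * N₂) =
        M₁ * (Matrix.single a b (1 : K) * N₁ * Matrix.single a b (1 : K)) +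
        M₁ * (Matrix.single a b (1 : K) * Matrix.single a b (1 : K)) * N₂ +
        Matrix.single a b (1 : K) * (M₂ * N₁ * Matrix.single a b (1 : K) +
          M₂ * Matrix.single a b (1 : K) * N₂) := by
      simp only [mul_add, add_mul, mul_assoc]
      abel
    rw [h5, h4, single_sq hab, mul_zero, zero_mul, add_zero, mul_smul_comm, smul_mul_assoc]
  · rw [mul_smul_comm, smul_mul_assoc, h2, smul_smul]

lemma PP.add {J : Set σ} {Y : σ → Matrix (Fin n) (Fin n) K} {a b : Fin n}
    {d : ℕ} {κ : K} {x y : FreeAlgebra K σ} (h : PP J Y a b d κ x)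
    (hy : y ∈ RS J Y a b d) : PP J Y a b d κ (x + y) := by
  obtain ⟨hD, M₁, M₂, h1, h2⟩ := h
  obtain ⟨hyD, M, hM⟩ := hy
  refine ⟨?_, M₁, M₂ + M, ?_, h2⟩
  · rw [map_add]
    exact hD.add hyD
  · rw [map_add, cf_add, h1, hM, mul_add, add_assoc]

/-- the criterion -/
theorem PP.key [Infinite K] (hn : 3 ≤ n) {J : Set σ} {a b : Fin n} (hab : a ≠ b)
    {Y : σ → Matrix (Fin n) (Fin n) K} {d : ℕ} {κ : K} {x : FreeAlgebra K σ}
    (h : PP J Y a b d κ x) (hκ : κ ≠ 0) (ν : ℕ) (hν : ν ≠ 0) : ¬ SV n (x ^ ν) := by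
  intro hSV
  obtain ⟨hD, M1, M2, hL, h2⟩ := h
  obtain ⟨c, hc⟩ := cf_scalar (M := ev J a b Y (x ^ ν)) (fun s => by
    unfold ev
    rw [evs_lift]
    exact hSV _) (d * ν) (by omega)
  rw [map_pow, cf_pow hD] at hc
  obtain ⟨u, hu, hu0, hu1⟩ : ∃ u : Fin n → K, u ≠ 0 ∧ u b = 0 ∧ (M2.mulVec u) b = 0 := by
    let φ : (Fin n → K) →ₗ[K] K × K := LinearMap.prod (LinearMap.proj b)
      ((LinearMap.proj b).comp (Matrix.mulVecLin M2))
    have hker : LinearMap.ker φ ≠ ⊥ := LinearMap.ker_ne_bot_of_finrank_lt (by simp; omega)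
    obtain ⟨u, hu, hu0⟩ := Submodule.exists_mem_ne_zero_of_ne_bot hker
    have h3 : φ u = 0 := hu
    exact ⟨u, hu0, congrArg Prod.fst h3, congrArg Prod.snd h3⟩
  have hEv : ∀ w : Fin n → K, w b = 0 → (Matrix.single a b (1 : K)).mulVec w = 0 := by
    intro w hw
    ext i
    rw [Matrix.single_mulVec]
    simp [hw]
  have hLu : (cf d (ev J a b Y x)).mulVec u = 0 := by
    rw [hL, Matrix.add_mulVec, ← Matrix.mulVec_mulVec, ← Matrix.mulVec_mulVec, hEv u hu0,
      hEv _ hu1, Matrix.mulVec_zero, add_zero]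
  have h0 := mulVec_kernel hu hLu hν hc
  have hEL : Matrix.single a b (1 : K) * cf d (ev J a b Y x) =
      κ • Matrix.single a b (1 : K) := by
    rw [hL, mul_add, ← mul_assoc, h2, ← mul_assoc, single_sq hab, zero_mul, add_zero]
  have hpow : ∀ m : ℕ, Matrix.single a b (1 : K) * cf d (ev J a b Y x) ^ m =
      κ ^ m • Matrix.single a b (1 : K) := by
    intro m
    induction m with
    | zero => rw [pow_zero, pow_zero, mul_one, one_smul]
    | succ m ih =>
      rw [pow_succ, ← mul_assoc, ih, smul_mul_assoc, hEL, smul_smul, pow_succ]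
  have h4 := hpow ν
  rw [h0, mul_zero] at h4
  have h5 := congrFun (congrFun h4 a) b
  simp only [Matrix.zero_apply, Matrix.smul_apply, Matrix.single_apply_same, smul_eq_mul,
    mul_one] at h5
  exact pow_ne_zero ν hκ h5.symm

/-- polynomials `∑ g_j h_j + y` -/
def Lead (n : ℕ) (J : Set σ) (f : FreeAlgebra K σ) : Prop :=
  ∃ (m : ℕ) (g h : Fin m → FreeAlgebra K σ) (y : FreeAlgebra K σ),
    (∀ j, g j ∈ SA K J) ∧ (∀ j, h j ∈ SA K Jᶜ) ∧
    (∀ c : Fin m → K, SV n (∑ j, c j • g j) → c = 0) ∧ (∃ j, ¬ SV n (h j)) ∧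
    y ∈ SA K Jᶜ * SA K J ⊔ SA K J ∧ f = ∑ j, g j * h j + y

lemma Lead.exists_poly {J : Set σ} {f : FreeAlgebra K σ} (hf : Lead n J f) {a b : Fin n}
    (hab : a ≠ b) : ∃ F : MvPolynomial (σ × Fin n × Fin n) K, F ≠ 0 ∧
      ∀ Y : σ → Matrix (Fin n) (Fin n) K, PP J Y a b 2 (spz Y F) f := by
  classical
  obtain ⟨m, g, h, y, hg, hh, hli, ⟨j₀, hj₀⟩, hy, rfl⟩ := hf
  have hev : ∀ (p : FreeAlgebra K σ) (i j : Fin n) (X : σ → Matrix (Fin n) (Fin n) K),
      spz X (FreeAlgebra.lift K (gen K σ n) p i j) = FreeAlgebra.lift K X p i j := by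
    intro p i j X
    rw [← spz_gen X p]
    rfl
  have hF : ∀ Y : σ → Matrix (Fin n) (Fin n) K,
      spz Y (-∑ j, FreeAlgebra.lift K (gen K σ n) (h j) b a *
        FreeAlgebra.lift K (gen K σ n) (g j) b a) =
      -∑ j, FreeAlgebra.lift K Y (h j) b a * FreeAlgebra.lift K Y (g j) b a := by
    intro Y
    rw [map_neg, map_sum]
    congr 1
    apply Finset.sum_congr rfl
    intro j _
    rw [map_mul, hev, hev]
  refine ⟨-∑ j, FreeAlgebra.lift K (gen K σ n) (h j) b a *
    FreeAlgebra.lift K (gen K σ n) (g j) b a, ?_, ?_⟩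
  · obtain ⟨Z, hZ⟩ := exists_entry hj₀ hab.symm
    have hns : ¬ SV n (∑ j, (FreeAlgebra.lift K Z (h j) b a) • g j) := by
      intro hcon
      exact hZ (congrFun (hli _ hcon) j₀)
    obtain ⟨Z', hZ'⟩ := exists_entry hns hab.symm
    let Y : σ → Matrix (Fin n) (Fin n) K := fun i => if i ∈ J then Z' i else Z i
    have hYg : ∀ j, FreeAlgebra.lift K Y (g j) = FreeAlgebra.lift K Z' (g j) := fun j =>
      lift_congr J Y Z' (fun i hi => by simp [Y, hi]) (g j) (hg j)
    have hYh : ∀ j, FreeAlgebra.lift K Y (h j) = FreeAlgebra.lift K Z (h j) := fun j =>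
      lift_congr Jᶜ Y Z (fun i hi => by
        have hi' : i ∉ J := hi
        simp [Y, hi']) (h j) (hh j)
    intro h0
    have h1 := hF Y
    rw [h0, map_zero] at h1
    apply hZ'
    rw [map_sum, Matrix.sum_apply]
    rw [eq_comm, neg_eq_zero] at h1
    rw [← h1]
    apply Finset.sum_congr rfl
    intro j _
    rw [map_smul, Matrix.smul_apply, smul_eq_mul, hYg, hYh]
  · intro Y
    apply PP.add
    · rw [hF]
      have hDj : ∀ j, Dg 2 (ev J a b Y (g j * h j)) := fun j => by
        rw [map_mul]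
        exact (Dg_evA (a := a) (b := b) J Y (g j) (hg j)).mul (Dg_evB J hab Y (h j) (hh j))
      have hcj : ∀ j, cf 2 (ev J a b Y (g j * h j)) = FreeAlgebra.lift K Y (g j) *
          -(FreeAlgebra.lift K Y (h j) b a • Matrix.single a b (1 : K)) := fun j => by
        rw [map_mul]
        have h3 := cf_mul (Dg_evA (a := a) (b := b) J Y (g j) (hg j))
          (Dg_evB J hab Y (h j) (hh j))
        rw [cf_evA J Y (g j) (hg j), cf_evB J hab Y (h j) (hh j)] at h3
        exact h3
      have hD : Dg 2 (ev J a b Y (∑ j, g j * h j)) := by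
        have h3 : ∑ j, g j * h j ∈ DS J Y a b 2 := Submodule.sum_mem _ fun j _ => hDj j
        exact h3
      have hcf : cf 2 (ev J a b Y (∑ j, g j * h j)) = ∑ j, FreeAlgebra.lift K Y (g j) *
          -(FreeAlgebra.lift K Y (h j) b a • Matrix.single a b (1 : K)) := by
        rw [map_sum]
        have h3 : ∀ s : Finset (Fin m), cf 2 (∑ j ∈ s, ev J a b Y (g j * h j)) =
            ∑ j ∈ s, FreeAlgebra.lift K Y (g j) *
              -(FreeAlgebra.lift K Y (h j) b a • Matrix.single a b (1 : K)) := by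
          intro s
          induction s using Finset.induction_on with
          | empty => rw [Finset.sum_empty, Finset.sum_empty, cf_zero]
          | insert j s hj ih => rw [Finset.sum_insert hj, Finset.sum_insert hj, cf_add, hcj, ih]
        exact h3 Finset.univ
      refine ⟨hD, ∑ j, -(FreeAlgebra.lift K Y (h j) b a • FreeAlgebra.lift K Y (g j)), 0, ?_, ?_⟩
      · rw [hcf, mul_zero, add_zero, Finset.sum_mul]
        apply Finset.sum_congr rfl
        intro j _
        rw [mul_neg, mul_smul_comm, neg_mul, smul_mul_assoc]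
      · rw [Finset.mul_sum, Finset.sum_mul, ← Finset.sum_neg_distrib, Finset.sum_smul]
        apply Finset.sum_congr rfl
        intro j _
        rw [mul_neg, mul_smul_comm, neg_mul, smul_mul_assoc, EME, smul_smul, neg_smul]
    · have h3 := top_le J hab Y 0
      rw [zero_add, pow_one, pow_zero, mul_one, mul_one] at h3
      exact h3 hy

lemma prod_poly {J : Set σ} {a b : Fin n} (hab : a ≠ b) (L : List (FreeAlgebra K σ)) :
    ∀ f : FreeAlgebra K σ, Lead n J f → (∀ f' ∈ L, Lead n J f') →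
    ∃ F : MvPolynomial (σ × Fin n × Fin n) K, F ≠ 0 ∧
      ∀ Y : σ → Matrix (Fin n) (Fin n) K,
        PP J Y a b (2 * (L.length + 1)) (spz Y F) (f :: L).prod := by
  induction L with
  | nil =>
    intro f hf _
    obtain ⟨F, hF, h⟩ := hf.exists_poly hab
    refine ⟨F, hF, fun Y => ?_⟩
    have := h Y
    simpa using this
  | cons f' L ih =>
    intro f hf hL
    obtain ⟨F, hF, h⟩ := hf.exists_poly hab
    obtain ⟨F', hF', h'⟩ := ih f' (hL f' List.mem_cons_self)
      (fun p hp => hL p (List.mem_cons_of_mem _ hp))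
    refine ⟨F' * F, mul_ne_zero hF' hF, fun Y => ?_⟩
    have h3 := (h Y).mul hab (h' Y)
    have h4 : 2 + 2 * (L.length + 1) = 2 * ((f' :: L).length + 1) := by
      rw [List.length_cons]; ring
    rw [h4, ← map_mul, ← List.prod_cons] at h3
    exact h3

/-- products of leading polynomials -/
theorem lead_products [Infinite K] (hn : 3 ≤ n) (J : Set σ) (k : ℕ)
    (L : List (FreeAlgebra K σ)) (hlen : L.length = k + 1) (hL : ∀ f ∈ L, Lead n J f)
    (y : FreeAlgebra K σ)
    (hy : y ∈ (SA K Jᶜ * SA K J) ^ (k + 1) ⊔ SA K J * (SA K Jᶜ * SA K J) ^ k)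
    (ν : ℕ) (hν : ν ≠ 0) : ¬ SV n ((L.prod + y) ^ ν) := by
  let a : Fin n := ⟨0, by omega⟩
  let b : Fin n := ⟨1, by omega⟩
  have hab : a ≠ b := by simp [a, b]
  obtain _ | ⟨f, L⟩ := L
  · simp at hlen
  · rw [List.length_cons] at hlen
    have hlen' : L.length = k := by omega
    obtain ⟨F, hF, h⟩ := prod_poly hab L f (hL f List.mem_cons_self)
      (fun p hp => hL p (List.mem_cons_of_mem _ hp))
    obtain ⟨x, hx⟩ : ∃ x : σ × Fin n × Fin n → K, MvPolynomial.eval x F ≠ 0 := by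
      by_contra hcon
      push Not at hcon
      apply hF
      apply MvPolynomial.funext
      intro x
      rw [hcon, map_zero]
    let Y : σ → Matrix (Fin n) (Fin n) K := fun i => Matrix.of fun b c => x (i, b, c)
    have hY : spz Y F ≠ 0 := by
      intro h0
      apply hx
      simpa [spz, MvPolynomial.coe_aeval_eq_eval, Y] using h0
    have h1 := h Y
    rw [hlen'] at h1
    exact (h1.add (top_le J hab Y k hy)).key hn hab hY ν hν

lemma prod_poly' {J : Set σ} {a b : Fin n} (hab : a ≠ b) (L : List (FreeAlgebra K σ))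
    (hL : ∀ f ∈ L, Lead n J f) :
    ∃ F : MvPolynomial (σ × Fin n × Fin n) K, F ≠ 0 ∧
      ∀ Y : σ → Matrix (Fin n) (Fin n) K, Dg (2 * L.length) (ev J a b Y L.prod) ∧
        Matrix.single a b (1 : K) * cf (2 * L.length) (ev J a b Y L.prod) =
          spz Y F • Matrix.single a b (1 : K) := by
  obtain _ | ⟨f, L⟩ := L
  · refine ⟨1, one_ne_zero, fun Y => ?_⟩
    have h0 : ev J a b Y (List.prod []) = 1 := by
      rw [List.prod_nil, map_one]
    rw [h0, map_one]
    refine ⟨Dg.one, ?_⟩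
    show Matrix.single a b (1 : K) * cf 0 1 = _
    rw [cf_one, mul_one, one_smul]
  · obtain ⟨F, hF, h⟩ := prod_poly hab L f (hL f List.mem_cons_self)
      (fun p hp => hL p (List.mem_cons_of_mem _ hp))
    refine ⟨F, hF, fun Y => ?_⟩
    obtain ⟨hD, M₁, M₂, h1, h2⟩ := h Y
    rw [List.length_cons]
    refine ⟨hD, ?_⟩
    rw [h1, mul_add, ← mul_assoc, h2, ← mul_assoc, single_sq hab, zero_mul, add_zero]

/-- products `g h f₁ ⋯ f_k w` -/
theorem lead_sandwich [Infinite K] (hn : 2 ≤ n) (J : Set σ) (k : ℕ) (g h w : FreeAlgebra K σ)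
    (L : List (FreeAlgebra K σ)) (hlen : L.length = k) (hL : ∀ f ∈ L, Lead n J f)
    (hg : g ∈ SA K J) (hw : w ∈ SA K J) (hh : h ∈ SA K Jᶜ) (hwg : ¬ SV n (w * g))
    (hh' : ¬ SV n h) (y : FreeAlgebra K σ) (hy : y ∈ SA K J * (SA K Jᶜ * SA K J) ^ k)
    (ν : ℕ) (hν : ν ≠ 0) : ¬ SV n ((g * h * L.prod * w + y) ^ ν) := by
  intro hSV
  let a : Fin n := ⟨0, by omega⟩
  let b : Fin n := ⟨1, by omega⟩
  have hab : a ≠ b := by simp [a, b]
  have hev : ∀ (p : FreeAlgebra K σ) (i j : Fin n) (X : σ → Matrix (Fin n) (Fin n) K),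
      spz X (FreeAlgebra.lift K (gen K σ n) p i j) = FreeAlgebra.lift K X p i j := by
    intro p i j X
    rw [← spz_gen X p]
    rfl
  have hne : ∀ p : FreeAlgebra K σ, ¬ SV n p → FreeAlgebra.lift K (gen K σ n) p b a ≠ 0 := by
    intro p hp h0
    obtain ⟨X, hX⟩ := exists_entry hp hab.symm
    apply hX
    rw [← hev, h0, map_zero]
  obtain ⟨F, hF, hFY⟩ := prod_poly' hab L hL
  have hF' : F * (FreeAlgebra.lift K (gen K σ n) (w * g) b a *
      FreeAlgebra.lift K (gen K σ n) h b a) ≠ 0 :=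
    mul_ne_zero hF (mul_ne_zero (hne _ hwg) (hne _ hh'))
  obtain ⟨x, hx⟩ : ∃ x : σ × Fin n × Fin n → K, MvPolynomial.eval x
      (F * (FreeAlgebra.lift K (gen K σ n) (w * g) b a *
      FreeAlgebra.lift K (gen K σ n) h b a)) ≠ 0 := by
    by_contra hcon
    push Not at hcon
    apply hF'
    apply MvPolynomial.funext
    intro x
    rw [hcon, map_zero]
  let Y : σ → Matrix (Fin n) (Fin n) K := fun i => Matrix.of fun b c => x (i, b, c)
  have hY : spz Y (F * (FreeAlgebra.lift K (gen K σ n) (w * g) b a *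
      FreeAlgebra.lift K (gen K σ n) h b a)) ≠ 0 := by
    intro h0
    apply hx
    simpa [spz, MvPolynomial.coe_aeval_eq_eval, Y] using h0
  rw [map_mul, map_mul, hev, hev] at hY
  have hκ0 : spz Y F ≠ 0 := left_ne_zero_of_mul hY
  have h1 : FreeAlgebra.lift K Y (w * g) b a ≠ 0 :=
    left_ne_zero_of_mul (right_ne_zero_of_mul hY)
  have h2 : FreeAlgebra.lift K Y h b a ≠ 0 := right_ne_zero_of_mul (right_ne_zero_of_mul hY)
  obtain ⟨hD, hE⟩ := hFY Y
  set κ := spz Y F with hκ
  rw [hlen] at hD hE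
  set G := FreeAlgebra.lift K Y g with hG
  set M := FreeAlgebra.lift K Y w with hM
  set η := FreeAlgebra.lift K Y h b a with hη
  have hgh := (Dg_evA (a := a) (b := b) J Y g hg).mul (Dg_evB J hab Y h hh)
  have hxD : Dg (2 * (k + 1)) (ev J a b Y (g * h * L.prod * w)) := by
    rw [map_mul, map_mul, map_mul]
    have h3 := (hgh.mul hD).mul (Dg_evA (a := a) (b := b) J Y w hw)
    exact h3.mono (by omega)
  have hxc : cf (2 * (k + 1)) (ev J a b Y (g * h * L.prod * w)) =
      (-(η * κ)) • (G * Matrix.single a b (1 : K) * M) := by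
    rw [map_mul, map_mul, map_mul]
    have h3 := cf_mul (hgh.mul hD) (Dg_evA (a := a) (b := b) J Y w hw)
    rw [cf_mul hgh hD, cf_mul (Dg_evA (a := a) (b := b) J Y g hg) (Dg_evB J hab Y h hh),
      cf_evA J Y g hg, cf_evB J hab Y h hh, cf_evA J Y w hw] at h3
    have h4 : 0 + 2 + 2 * k + 0 = 2 * (k + 1) := by ring
    rw [h4] at h3
    rw [h3, mul_neg, mul_smul_comm, neg_mul, smul_mul_assoc, mul_assoc G, hE, neg_mul,
      smul_mul_assoc, mul_smul_comm, smul_mul_assoc, smul_smul, neg_smul]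
  have hyD : y ∈ DS J Y a b (2 * k) := by
    have h3 := (mul_le_mul' (A_le J Y) (BA_pow_le J hab Y k)).trans (DS_mul J Y 0 (2 * k))
    rw [zero_add] at h3
    exact h3 hy
  have hyD' : Dg (2 * k) (ev J a b Y y) := hyD
  have hfD : Dg (2 * (k + 1)) (ev J a b Y (g * h * L.prod * w + y)) := by
    rw [map_add]
    exact hxD.add (hyD'.mono (by omega))
  have hfc : cf (2 * (k + 1)) (ev J a b Y (g * h * L.prod * w + y)) =
      (-(η * κ)) • (G * Matrix.single a b (1 : K) * M) := by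
    rw [map_add, cf_add, hyD'.cf_eq_zero (by omega), add_zero, hxc]
  obtain ⟨c, hc⟩ := cf_scalar (M := ev J a b Y ((g * h * L.prod * w + y) ^ ν)) (fun s => by
    unfold ev
    rw [evs_lift]
    exact hSV _) (2 * (k + 1) * ν) (by omega)
  rw [map_pow, cf_pow hfD, hfc] at hc
  obtain ⟨u, hu, hu0⟩ : ∃ u : Fin n → K, u ≠ 0 ∧ (M.mulVec u) b = 0 := by
    let φ : (Fin n → K) →ₗ[K] K := (LinearMap.proj b).comp (Matrix.mulVecLin M)
    have hker : LinearMap.ker φ ≠ ⊥ := LinearMap.ker_ne_bot_of_finrank_lt (by simp; omega)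
    obtain ⟨u, hu, hu0⟩ := Submodule.exists_mem_ne_zero_of_ne_bot hker
    exact ⟨u, hu0, hu⟩
  have hEv : ∀ w : Fin n → K, w b = 0 → (Matrix.single a b (1 : K)).mulVec w = 0 := by
    intro w hw
    ext i
    rw [Matrix.single_mulVec]
    simp [hw]
  have hLu : ((-(η * κ)) • (G * Matrix.single a b (1 : K) * M)).mulVec u = 0 := by
    rw [Matrix.smul_mulVec, ← Matrix.mulVec_mulVec, ← Matrix.mulVec_mulVec, hEv _ hu0,
      Matrix.mulVec_zero, smul_zero]
  have h0 := mulVec_kernel hu hLu hν hc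
  have hMG : M * G = FreeAlgebra.lift K Y (w * g) := by rw [map_mul]
  have hEL : Matrix.single a b (1 : K) * M * ((-(η * κ)) • (G * Matrix.single a b (1 : K) * M)) =
      (-(η * κ) * FreeAlgebra.lift K Y (w * g) b a) • (Matrix.single a b (1 : K) * M) := by
    rw [mul_smul_comm]
    have h3 : Matrix.single a b (1 : K) * M * (G * Matrix.single a b (1 : K) * M) =
        Matrix.single a b (1 : K) * (M * G) * Matrix.single a b (1 : K) * M := by
      simp only [mul_assoc]
    rw [h3, hMG, EME, smul_mul_assoc, smul_smul]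
  have hpow : ∀ m : ℕ, Matrix.single a b (1 : K) * M *
      ((-(η * κ)) • (G * Matrix.single a b (1 : K) * M)) ^ m =
      (-(η * κ) * FreeAlgebra.lift K Y (w * g) b a) ^ m • (Matrix.single a b (1 : K) * M) := by
    intro m
    induction m with
    | zero => rw [pow_zero, pow_zero, mul_one, one_smul]
    | succ m ih =>
      rw [pow_succ, ← mul_assoc, ih, smul_mul_assoc, hEL, smul_smul, pow_succ]
  have h4 := hpow ν
  rw [h0, mul_zero] at h4
  have h5 : Matrix.single a b (1 : K) * M = 0 :=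
    (smul_eq_zero.1 h4.symm).resolve_left
      (pow_ne_zero ν (mul_ne_zero (neg_ne_zero.2 (mul_ne_zero h2 hκ0)) h1))
  apply h1
  rw [← hMG]
  have h6 : (Matrix.single a b (1 : K) * M * G) a a = (M * G) b a := by
    rw [mul_assoc, Matrix.single_mul_apply_same, one_mul]
  rw [← h6, h5, zero_mul, Matrix.zero_apply]

end Pool.Agent.Y69.DV
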