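import Pool.Agent.Y69.DV.OneBlock

/-!
# One block of other variables: several commuting variables
-/

set_option autoImplicit false
set_option linter.unusedSectionVars false
set_option linter.unusedSimpArgs false

namespace Pool.Agent.Y69.DV

open Matrix Polynomial

variable {K : Type*} [Field K] {σ : Type*} {n : ℕ}

open Classical in
/-- the substitution -/
noncomputable def sbs (J : Set σ) (q : σ → K[X]) : FreeAlgebra K σ →ₐ[K] FreeAlgebra K (Option σ) :=
  FreeAlgebra.lift K fun i => if i ∈ J then Polynomial.aeval (FreeAlgebra.ι K none) (q i)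
    else FreeAlgebra.ι K (some i)

open Classical in
lemma lift_sbs (J : Set σ) (q : σ → K[X]) (W : Option σ → Matrix (Fin n) (Fin n) K)
    (f : FreeAlgebra K σ) : FreeAlgebra.lift K W (sbs J q f) =
      FreeAlgebra.lift K (fun i => if i ∈ J then Polynomial.aeval (W none) (q i)
        else W (some i)) f := by
  have h : (FreeAlgebra.lift K W).comp (sbs J q) =
      FreeAlgebra.lift K (fun i => if i ∈ J then Polynomial.aeval (W none) (q i)
        else W (some i)) := by
    apply FreeAlgebra.hom_ext
    funext i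
    simp only [Function.comp_apply, AlgHom.comp_apply, sbs, FreeAlgebra.lift_ι_apply,
      AlgHom.coe_comp]
    split_ifs with hi
    · rw [← Polynomial.aeval_algHom_apply, FreeAlgebra.lift_ι_apply]
    · rw [FreeAlgebra.lift_ι_apply]
  rw [← h]
  rfl

lemma sbs_mem (J : Set σ) (q : σ → K[X]) (g : FreeAlgebra K σ) (hg : g ∈ SA K J) :
    sbs J q g ∈ SA K ({none} : Set (Option σ)) := by
  change g ∈ Algebra.adjoin K (FreeAlgebra.ι K '' J) at hg
  change sbs J q g ∈ Algebra.adjoin K (FreeAlgebra.ι K '' {none})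
  induction hg using Algebra.adjoin_induction with
  | mem x hx =>
    obtain ⟨i, hi, rfl⟩ := hx
    rw [sbs, FreeAlgebra.lift_ι_apply, if_pos hi, Set.image_singleton]
    exact Polynomial.aeval_mem_adjoin_singleton _ _
  | algebraMap r => rw [AlgHom.commutes]; exact Subalgebra.algebraMap_mem _ _
  | add x y _ _ hx hy => rw [map_add]; exact Subalgebra.add_mem _ hx hy
  | mul x y _ _ hx hy => rw [map_mul]; exact Subalgebra.mul_mem _ hx hy

lemma sbs_mem' (J : Set σ) (q : σ → K[X]) (g : FreeAlgebra K σ) (hg : g ∈ SA K Jᶜ) :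
    sbs J q g ∈ SA K ({none} : Set (Option σ))ᶜ := by
  change g ∈ Algebra.adjoin K (FreeAlgebra.ι K '' Jᶜ) at hg
  change sbs J q g ∈ Algebra.adjoin K (FreeAlgebra.ι K '' {none}ᶜ)
  induction hg using Algebra.adjoin_induction with
  | mem x hx =>
    obtain ⟨i, hi, rfl⟩ := hx
    rw [sbs, FreeAlgebra.lift_ι_apply, if_neg hi]
    exact Algebra.subset_adjoin ⟨some i, by simp, rfl⟩
  | algebraMap r => rw [AlgHom.commutes]; exact Subalgebra.algebraMap_mem _ _
  | add x y _ _ hx hy => rw [map_add]; exact Subalgebra.add_mem _ hx hy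
  | mul x y _ _ hx hy => rw [map_mul]; exact Subalgebra.mul_mem _ hx hy

open Classical in
lemma one_block_step [Infinite K] (hn : 3 ≤ n) (J : Set σ) (f : FreeAlgebra K σ)
    (hf : f ∈ SA K J * SA K Jᶜ * SA K J) (ν : ℕ) (hν : ν ≠ 0) (hSV : SV n (f ^ ν))
    (q : σ → K[X]) (Y : σ → Matrix (Fin n) (Fin n) K) (M M' : Matrix (Fin n) (Fin n) K) :
    FreeAlgebra.lift K (fun i => if i ∈ J then Polynomial.aeval M (q i) else Y i) f =
      FreeAlgebra.lift K (fun i => if i ∈ J then Polynomial.aeval M' (q i) else Y i) f := by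
  have hmem : sbs J q f ∈ SA K ({none} : Set (Option σ)) * SA K ({none} : Set (Option σ))ᶜ *
      SA K ({none} : Set (Option σ)) := by
    clear hSV
    induction hf using Submodule.mul_induction_on' with
    | mem_mul_mem u hu w hw =>
      rw [map_mul]
      refine Submodule.mul_mem_mul ?_ (sbs_mem J q w hw)
      induction hu using Submodule.mul_induction_on' with
      | mem_mul_mem u hu b hb =>
        rw [map_mul]
        exact Submodule.mul_mem_mul (sbs_mem J q u hu) (sbs_mem' J q b hb)
      | add u _ v _ hu hv => rw [map_add]; exact Submodule.add_mem _ hu hv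
    | add u _ v _ hu hv => rw [map_add]; exact Submodule.add_mem _ hu hv
  have hSV' : SV n (sbs J q f ^ ν) := by
    intro W
    rw [← map_pow, lift_sbs]
    exact hSV _
  have h := one_block hn none (sbs J q f) hmem ν hν hSV' (fun o => o.elim M Y)
    (fun o => o.elim M' Y) (by
      intro i hi
      cases i with
      | none => exact absurd rfl hi
      | some i => rfl)
  rw [lift_sbs, lift_sbs] at h
  exact h

lemma aeval_zero_mat (q : K[X]) : Polynomial.aeval (0 : Matrix (Fin n) (Fin n) K) q =
    algebraMap K (Matrix (Fin n) (Fin n) K) (q.eval 0) := by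
  have h := Polynomial.aeval_algebraMap_apply (Matrix (Fin n) (Fin n) K) (0 : K) q
  rw [map_zero] at h
  rw [h]
  simp

/-- several commuting variables -/
theorem one_block_gen [Infinite K] (hn : 3 ≤ n) (J : Set σ) (f : FreeAlgebra K σ)
    (hf : f ∈ SA K J * SA K Jᶜ * SA K J) (ν : ℕ) (hν : ν ≠ 0) (hSV : SV n (f ^ ν))
    (X X' : σ → Matrix (Fin n) (Fin n) K) (M M' : Matrix (Fin n) (Fin n) K)
    (hM : ∀ j ∈ J, X j ∈ Algebra.adjoin K {M}) (hM' : ∀ j ∈ J, X' j ∈ Algebra.adjoin K {M'})
    (hX : ∀ i, i ∉ J → X i = X' i) : FreeAlgebra.lift K X f = FreeAlgebra.lift K X' f := by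
  classical
  have hch : ∀ (Z : σ → Matrix (Fin n) (Fin n) K) (N : Matrix (Fin n) (Fin n) K),
      (∀ j ∈ J, Z j ∈ Algebra.adjoin K {N}) → ∃ q : σ → K[X], ∀ j ∈ J,
        Z j = Polynomial.aeval N (q j) := by
    intro Z N hN
    have h1 : ∀ j, ∃ q : K[X], j ∈ J → Z j = Polynomial.aeval N q := by
      intro j
      by_cases hj : j ∈ J
      · have h2 := hN j hj
        rw [Algebra.adjoin_singleton_eq_range_aeval] at h2
        obtain ⟨q, hq⟩ := h2
        exact ⟨q, fun _ => hq.symm⟩
      · exact ⟨0, fun h => absurd h hj⟩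
    choose q hq using h1
    exact ⟨q, hq⟩
  obtain ⟨q, hq⟩ := hch X M hM
  obtain ⟨q', hq'⟩ := hch X' M' hM'
  have e1 : X = fun i => if i ∈ J then Polynomial.aeval M (q i) else X i := by
    funext i
    split_ifs with hi
    · exact hq i hi
    · rfl
  have e2 : X' = fun i => if i ∈ J then Polynomial.aeval M' (q' i) else X i := by
    funext i
    split_ifs with hi
    · exact hq' i hi
    · exact (hX i hi).symm
  have s1 := one_block_step hn J f hf ν hν hSV q X M 0
  have s2 := one_block_step hn J f hf ν hν hSV q' X M' 0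
  have s3 := one_block_step hn J f hf ν hν hSV
    (fun i => Polynomial.C ((q i).eval 0) +
      Polynomial.X * (Polynomial.C ((q' i).eval 0) - Polynomial.C ((q i).eval 0))) X 0 1
  have e3 : (fun i => if i ∈ J then Polynomial.aeval (0 : Matrix (Fin n) (Fin n) K)
      (Polynomial.C ((q i).eval 0) +
        Polynomial.X * (Polynomial.C ((q' i).eval 0) - Polynomial.C ((q i).eval 0))) else X i) =
      fun i => if i ∈ J then Polynomial.aeval (0 : Matrix (Fin n) (Fin n) K) (q i) else X i := by
    funext i
    rw [aeval_zero_mat, aeval_zero_mat]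
    simp
  have e4 : (fun i => if i ∈ J then Polynomial.aeval (1 : Matrix (Fin n) (Fin n) K)
      (Polynomial.C ((q i).eval 0) +
        Polynomial.X * (Polynomial.C ((q' i).eval 0) - Polynomial.C ((q i).eval 0))) else X i) =
      fun i => if i ∈ J then Polynomial.aeval (0 : Matrix (Fin n) (Fin n) K) (q' i) else X i := by
    funext i
    rw [aeval_zero_mat (q' i)]
    simp
  rw [e3, e4] at s3
  rw [e1, e2, s1, s2, s3]

end Pool.Agent.Y69.DV
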