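import Pool.Agent.Y69.DV.Main

/-!
# Polynomials with separated variables are not power-central: the theorems
-/

set_option autoImplicit false
set_option linter.unusedSectionVars false
set_option linter.unusedSimpArgs false

namespace Pool.Agent.Y69.DV

open Matrix Polynomial

variable {K : Type*} [Field K] {σ : Type*} {n : ℕ}

/-- products of `g h` -/
theorem products [Infinite K] (hn : 3 ≤ n) (J : Set σ) (k : ℕ)
    (L : List (FreeAlgebra K σ × FreeAlgebra K σ)) (hlen : L.length = k + 1)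
    (hL : ∀ p ∈ L, p.1 ∈ SA K J ∧ p.2 ∈ SA K Jᶜ ∧ ¬ SV n p.1 ∧ ¬ SV n p.2)
    (y : FreeAlgebra K σ)
    (hy : y ∈ (SA K Jᶜ * SA K J) ^ (k + 1) ⊔ SA K J * (SA K Jᶜ * SA K J) ^ k)
    (ν : ℕ) (hν : ν ≠ 0) : ¬ SV n ((PL L + y) ^ ν) := by
  let a : Fin n := ⟨0, by omega⟩
  let b : Fin n := ⟨1, by omega⟩
  have hab : a ≠ b := by simp [a, b]
  obtain ⟨Y, hY⟩ := common
    ((L.map fun p => (p.1, b, a)) ++ (L.map fun p => (p.2, b, a))) (by
      intro q hq
      rw [List.mem_append, List.mem_map, List.mem_map] at hq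
      rcases hq with ⟨p, hp, rfl⟩ | ⟨p, hp, rfl⟩
      · exact exists_entry (hL p hp).2.2.1 hab.symm
      · exact exists_entry (hL p hp).2.2.2 hab.symm)
  obtain ⟨hD, ⟨κ, hκ, hE⟩, hM⟩ := lead_gh J hab Y L fun p hp => ⟨(hL p hp).1, (hL p hp).2.1⟩
  have hκ0 : κ ≠ 0 := hκ fun p hp => ⟨hY (p.1, b, a) (List.mem_append_left _
    (List.mem_map.2 ⟨p, hp, rfl⟩)), hY (p.2, b, a) (List.mem_append_right _
    (List.mem_map.2 ⟨p, hp, rfl⟩))⟩
  have hne : L ≠ [] := by
    rintro rfl
    simp at hlen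
  rw [hlen] at hD hE hM
  exact key hn J hab Y (2 * (k + 1)) (PL L) hD κ hκ0 hE (hM hne) y (top_le J hab Y k hy) ν hν

/-- products `g₀ h₀ g₁ h₁ ⋯ g_k h_k g_{k+1}` -/
theorem sandwich [Infinite K] (hn : 2 ≤ n) (J : Set σ) (k : ℕ) (g h w : FreeAlgebra K σ)
    (L : List (FreeAlgebra K σ × FreeAlgebra K σ)) (hlen : L.length = k)
    (hL : ∀ p ∈ L, p.1 ∈ SA K J ∧ p.2 ∈ SA K Jᶜ ∧ ¬ SV n p.1 ∧ ¬ SV n p.2)
    (hg : g ∈ SA K J) (hw : w ∈ SA K J) (hh : h ∈ SA K Jᶜ) (hwg : ¬ SV n (w * g))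
    (hh' : ¬ SV n h) (y : FreeAlgebra K σ) (hy : y ∈ SA K J * (SA K Jᶜ * SA K J) ^ k)
    (ν : ℕ) (hν : ν ≠ 0) : ¬ SV n ((g * h * PL L * w + y) ^ ν) := by
  intro hSV
  let a : Fin n := ⟨0, by omega⟩
  let b : Fin n := ⟨1, by omega⟩
  have hab : a ≠ b := by simp [a, b]
  obtain ⟨Y, hY⟩ := common
    ((w * g, b, a) :: (h, b, a) :: ((L.map fun p => (p.1, b, a)) ++
      (L.map fun p => (p.2, b, a)))) (by
      intro q hq
      rw [List.mem_cons, List.mem_cons, List.mem_append, List.mem_map, List.mem_map] at hq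
      rcases hq with rfl | rfl | ⟨p, hp, rfl⟩ | ⟨p, hp, rfl⟩
      · exact exists_entry hwg hab.symm
      · exact exists_entry hh' hab.symm
      · exact exists_entry (hL p hp).2.2.1 hab.symm
      · exact exists_entry (hL p hp).2.2.2 hab.symm)
  obtain ⟨hD, ⟨κ, hκ, hE⟩, -⟩ := lead_gh J hab Y L fun p hp => ⟨(hL p hp).1, (hL p hp).2.1⟩
  have hκ0 : κ ≠ 0 := hκ fun p hp => ⟨hY (p.1, b, a) (List.mem_cons_of_mem _
    (List.mem_cons_of_mem _ (List.mem_append_left _ (List.mem_map.2 ⟨p, hp, rfl⟩)))),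
    hY (p.2, b, a) (List.mem_cons_of_mem _ (List.mem_cons_of_mem _ (List.mem_append_right _
    (List.mem_map.2 ⟨p, hp, rfl⟩))))⟩
  have h1 : FreeAlgebra.lift K Y (w * g) b a ≠ 0 := hY (w * g, b, a) (by simp)
  have h2 : FreeAlgebra.lift K Y h b a ≠ 0 := hY (h, b, a) (by simp)
  rw [hlen] at hD hE
  set G := FreeAlgebra.lift K Y g with hG
  set M := FreeAlgebra.lift K Y w with hM
  set η := FreeAlgebra.lift K Y h b a with hη
  have hgh := (Dg_evA (a := a) (b := b) J Y g hg).mul (Dg_evB J hab Y h hh)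
  have hxD : Dg (2 * (k + 1)) (ev J a b Y (g * h * PL L * w)) := by
    rw [map_mul, map_mul, map_mul]
    have h3 := (hgh.mul hD).mul (Dg_evA (a := a) (b := b) J Y w hw)
    exact h3.mono (by omega)
  have hxc : cf (2 * (k + 1)) (ev J a b Y (g * h * PL L * w)) =
      (-(η * κ)) • (G * Matrix.single a b (1 : K) * M) := by
    rw [map_mul, map_mul, map_mul]
    have h3 := cf_mul (hgh.mul hD) (Dg_evA (a := a) (b := b) J Y w hw)
    rw [cf_mul hgh hD, cf_mul (Dg_evA (a := a) (b := b) J Y g hg) (Dg_evB J hab Y h hh),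
      cf_evA J Y g hg, cf_evB J hab Y h hh, cf_evA J Y w hw] at h3
    have h4 : 0 + 2 + 2 * k + 0 = 2 * (k + 1) := by ring
    rw [h4] at h3
    rw [h3, mul_neg, mul_smul_comm, neg_mul, smul_mul_assoc, mul_assoc G, hE, neg_mul,
      smul_mul_assoc, mul_smul_comm, smul_mul_assoc, smul_smul, neg_smul]
  have hyD : y ∈ DS J Y a b (2 * k) := by
    have h3 := (mul_le_mul' (A_le J Y) (BA_pow_le J hab Y k)).trans (DS_mul J Y 0 (2 * k))
    rw [zero_add] at h3
    exact h3 hy
  have hyD' : Dg (2 * k) (ev J a b Y y) := hyD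
  have hfD : Dg (2 * (k + 1)) (ev J a b Y (g * h * PL L * w + y)) := by
    rw [map_add]
    exact hxD.add (hyD'.mono (by omega))
  have hfc : cf (2 * (k + 1)) (ev J a b Y (g * h * PL L * w + y)) =
      (-(η * κ)) • (G * Matrix.single a b (1 : K) * M) := by
    rw [map_add, cf_add, hyD'.cf_eq_zero (by omega), add_zero, hxc]
  obtain ⟨c, hc⟩ := cf_scalar (M := ev J a b Y ((g * h * PL L * w + y) ^ ν)) (fun s => by
    unfold ev
    rw [evs_lift]
    exact hSV _) (2 * (k + 1) * ν) (by omega)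
  rw [map_pow, cf_pow hfD, hfc] at hc
  obtain ⟨u, hu, hu0⟩ : ∃ u : Fin n → K, u ≠ 0 ∧ (M.mulVec u) b = 0 := by
    let φ : (Fin n → K) →ₗ[K] K := (LinearMap.proj b).comp (Matrix.mulVecLin M)
    have hker : LinearMap.ker φ ≠ ⊥ := LinearMap.ker_ne_bot_of_finrank_lt (by simp; omega)
    obtain ⟨u, hu, hu0⟩ := Submodule.exists_mem_ne_zero_of_ne_bot hker
    exact ⟨u, hu0, hu⟩
  have hEv : ∀ w : Fin n → K, w b = 0 → (Matrix.single a b (1 : K)).mulVec w = 0 := by
    intro w hw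
    ext i
    rw [Matrix.single_mulVec]
    simp [hw]
  have hLu : ((-(η * κ)) • (G * Matrix.single a b (1 : K) * M)).mulVec u = 0 := by
    rw [Matrix.smul_mulVec, ← Matrix.mulVec_mulVec, ← Matrix.mulVec_mulVec, hEv _ hu0,
      Matrix.mulVec_zero, smul_zero]
  have h0 := mulVec_kernel hu hLu hν hc
  have hMG : M * G = FreeAlgebra.lift K Y (w * g) := by rw [map_mul]
  have hEL : Matrix.single a b (1 : K) * M * ((-(η * κ)) • (G * Matrix.single a b (1 : K) * M)) =
      (-(η * κ) * FreeAlgebra.lift K Y (w * g) b a) • (Matrix.single a b (1 : K) * M) := by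
    rw [mul_smul_comm]
    have h3 : Matrix.single a b (1 : K) * M * (G * Matrix.single a b (1 : K) * M) =
        Matrix.single a b (1 : K) * (M * G) * Matrix.single a b (1 : K) * M := by
      simp only [mul_assoc]
    rw [h3, hMG, EME, smul_mul_assoc, smul_smul]
  have hpow : ∀ m : ℕ, Matrix.single a b (1 : K) * M *
      ((-(η * κ)) • (G * Matrix.single a b (1 : K) * M)) ^ m =
      (-(η * κ) * FreeAlgebra.lift K Y (w * g) b a) ^ m • (Matrix.single a b (1 : K) * M) := by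
    intro m
    induction m with
    | zero => rw [pow_zero, pow_zero, mul_one, one_smul]
    | succ m ih =>
      rw [pow_succ, ← mul_assoc, ih, smul_mul_assoc, hEL, smul_smul, pow_succ]
  have h4 := hpow ν
  rw [h0, mul_zero] at h4
  have h5 : Matrix.single a b (1 : K) * M = 0 :=
    (smul_eq_zero.1 h4.symm).resolve_left
      (pow_ne_zero ν (mul_ne_zero (neg_ne_zero.2 (mul_ne_zero h2 hκ0)) h1))
  apply h1
  rw [← hMG]
  have h6 : (Matrix.single a b (1 : K) * M * G) a a = (M * G) b a := by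
    rw [mul_assoc, Matrix.single_mul_apply_same, one_mul]
  rw [← h6, h5, zero_mul, Matrix.zero_apply]

/-- sums of less than `n` products `g h w` -/
theorem few_terms [Infinite K] (J : Set σ) (m : ℕ) (hm : m < n)
    (g h w : Fin m → FreeAlgebra K σ) (hg : ∀ j, g j ∈ SA K J) (hh : ∀ j, h j ∈ SA K Jᶜ)
    (hw : ∀ j, w j ∈ SA K J)
    (hli : ∀ c : Fin m → K, SV n (∑ j, c j • h j) → c = 0) (j₀ : Fin m)
    (hj₀ : ¬ SV n (w j₀ * g j₀)) (y : FreeAlgebra K σ) (hy : y ∈ SA K J)
    (ν : ℕ) (hν : ν ≠ 0) : ¬ SV n ((∑ j, g j * h j * w j + y) ^ ν) := by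
  classical
  intro hSV
  have hm0 : 0 < m := j₀.pos
  let a : Fin n := ⟨0, by omega⟩
  let b : Fin n := ⟨1, by omega⟩
  have hab : a ≠ b := by simp [a, b]
  obtain ⟨Z', hZ'⟩ := exists_entry hj₀ hab.symm
  have hns : ¬ SV n (∑ j, (FreeAlgebra.lift K Z' (w j * g j) b a) • h j) := by
    intro hcon
    exact hZ' (congrFun (hli _ hcon) j₀)
  obtain ⟨Z, hZ⟩ := exists_entry hns hab.symm
  let Y : σ → Matrix (Fin n) (Fin n) K := fun i => if i ∈ J then Z' i else Z i
  have hYg : ∀ f ∈ SA K J, FreeAlgebra.lift K Y f = FreeAlgebra.lift K Z' f := fun f hf =>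
    lift_congr J Y Z' (fun i hi => by simp [Y, hi]) f hf
  have hYh : ∀ j, FreeAlgebra.lift K Y (h j) = FreeAlgebra.lift K Z (h j) := fun j =>
    lift_congr Jᶜ Y Z (fun i hi => by
      have hi' : i ∉ J := hi
      simp [Y, hi']) (h j) (hh j)
  have hgh := fun j =>
    (Dg_evA (a := a) (b := b) J Y (g j) (hg j)).mul (Dg_evB J hab Y (h j) (hh j))
  have hDj : ∀ j, Dg 2 (ev J a b Y (g j * h j * w j)) := fun j => by
    rw [map_mul, map_mul]
    exact (hgh j).mul (Dg_evA (a := a) (b := b) J Y (w j) (hw j))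
  have hcj : ∀ j, cf 2 (ev J a b Y (g j * h j * w j)) = -(FreeAlgebra.lift K Z (h j) b a •
      (FreeAlgebra.lift K Z' (g j) * Matrix.single a b (1 : K) *
        FreeAlgebra.lift K Z' (w j))) := fun j => by
    rw [map_mul, map_mul]
    have h3 := cf_mul (hgh j) (Dg_evA (a := a) (b := b) J Y (w j) (hw j))
    rw [cf_mul (Dg_evA (a := a) (b := b) J Y (g j) (hg j)) (Dg_evB J hab Y (h j) (hh j)),
      cf_evA J Y (g j) (hg j), cf_evB J hab Y (h j) (hh j), cf_evA J Y (w j) (hw j),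
      hYg _ (hg j), hYg _ (hw j), hYh, mul_neg, mul_smul_comm, neg_mul, smul_mul_assoc] at h3
    exact h3
  have hD : Dg 2 (ev J a b Y (∑ j, g j * h j * w j + y)) := by
    have h3 : ∑ j, g j * h j * w j + y ∈ DS J Y a b 2 :=
      Submodule.add_mem _ (Submodule.sum_mem _ fun j _ => hDj j)
        (Dg.mono (Dg_evA (a := a) (b := b) J Y y hy) (Nat.zero_le 2))
    exact h3
  have hcf : cf 2 (ev J a b Y (∑ j, g j * h j * w j + y)) = ∑ j,
      -(FreeAlgebra.lift K Z (h j) b a • (FreeAlgebra.lift K Z' (g j) *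
        Matrix.single a b (1 : K) * FreeAlgebra.lift K Z' (w j))) := by
    rw [map_add, map_sum, cf_add,
      (Dg_evA (a := a) (b := b) J Y y hy).cf_eq_zero (by norm_num), add_zero]
    have h3 : ∀ s : Finset (Fin m), cf 2 (∑ j ∈ s, ev J a b Y (g j * h j * w j)) =
        ∑ j ∈ s, -(FreeAlgebra.lift K Z (h j) b a • (FreeAlgebra.lift K Z' (g j) *
        Matrix.single a b (1 : K) * FreeAlgebra.lift K Z' (w j))) := by
      intro s
      induction s using Finset.induction_on with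
      | empty => rw [Finset.sum_empty, Finset.sum_empty, cf_zero]
      | insert j s hj ih => rw [Finset.sum_insert hj, Finset.sum_insert hj, cf_add, hcj, ih]
    exact h3 Finset.univ
  obtain ⟨c, hc⟩ := cf_scalar (M := ev J a b Y ((∑ j, g j * h j * w j + y) ^ ν)) (fun s => by
    unfold ev
    rw [evs_lift]
    exact hSV _) (2 * ν) (by omega)
  rw [map_pow, cf_pow hD] at hc
  obtain ⟨u, hu, hu0⟩ : ∃ u : Fin n → K, u ≠ 0 ∧
      ∀ j, ((FreeAlgebra.lift K Z' (w j)).mulVec u) b = 0 := by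
    let φ : (Fin n → K) →ₗ[K] (Fin m → K) := LinearMap.pi fun j =>
      (LinearMap.proj b).comp (Matrix.mulVecLin (FreeAlgebra.lift K Z' (w j)))
    have hker : LinearMap.ker φ ≠ ⊥ := LinearMap.ker_ne_bot_of_finrank_lt (by simp; omega)
    obtain ⟨u, hu, hu0⟩ := Submodule.exists_mem_ne_zero_of_ne_bot hker
    exact ⟨u, hu0, fun j => congrFun hu j⟩
  have hEv : ∀ w : Fin n → K, w b = 0 → (Matrix.single a b (1 : K)).mulVec w = 0 := by
    intro w hw
    ext i
    rw [Matrix.single_mulVec]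
    simp [hw]
  have hLu : (cf 2 (ev J a b Y (∑ j, g j * h j * w j + y))).mulVec u = 0 := by
    rw [hcf, Matrix.sum_mulVec]
    apply Finset.sum_eq_zero
    intro j _
    rw [Matrix.neg_mulVec, Matrix.smul_mulVec, ← Matrix.mulVec_mulVec, ← Matrix.mulVec_mulVec,
      hEv _ (hu0 j), Matrix.mulVec_zero, smul_zero, neg_zero]
  have h0 := mulVec_kernel hu hLu hν hc
  have htr : (cf 2 (ev J a b Y (∑ j, g j * h j * w j + y))).trace =
      -(FreeAlgebra.lift K Z (∑ j, (FreeAlgebra.lift K Z' (w j * g j) b a) • h j) b a) := by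
    rw [hcf, Matrix.trace_sum, map_sum, Matrix.sum_apply, ← Finset.sum_neg_distrib]
    apply Finset.sum_congr rfl
    intro j _
    rw [Matrix.trace_neg, Matrix.trace_smul, Matrix.trace_mul_comm, ← mul_assoc, ← map_mul,
      map_smul, Matrix.smul_apply, smul_eq_mul, smul_eq_mul, Matrix.trace_mul_single, mul_comm]
    simp
  have h5 : IsNilpotent (cf 2 (ev J a b Y (∑ j, g j * h j * w j + y))).trace :=
    Matrix.isNilpotent_trace_of_isNilpotent ⟨ν, h0⟩
  rw [htr] at h5
  exact hZ (neg_eq_zero.1 h5.eq_zero)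

/-- sums of products `g h` -/
theorem sums [Infinite K] (hn : 3 ≤ n) (J : Set σ) (m : ℕ)
    (g h : Fin m → FreeAlgebra K σ) (hg : ∀ j, g j ∈ SA K J) (hh : ∀ j, h j ∈ SA K Jᶜ)
    (hli : ∀ c : Fin m → K, SV n (∑ j, c j • g j) → c = 0) (j₀ : Fin m) (hj₀ : ¬ SV n (h j₀))
    (y : FreeAlgebra K σ) (hy : y ∈ SA K Jᶜ * SA K J ⊔ SA K J)
    (ν : ℕ) (hν : ν ≠ 0) : ¬ SV n ((∑ j, g j * h j + y) ^ ν) := by
  classical
  let a : Fin n := ⟨0, by omega⟩
  let b : Fin n := ⟨1, by omega⟩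
  have hab : a ≠ b := by simp [a, b]
  obtain ⟨Z, hZ⟩ := exists_entry hj₀ hab.symm
  have hns : ¬ SV n (∑ j, (FreeAlgebra.lift K Z (h j) b a) • g j) := by
    intro hcon
    exact hZ (congrFun (hli _ hcon) j₀)
  obtain ⟨Z', hZ'⟩ := exists_entry hns hab.symm
  let Y : σ → Matrix (Fin n) (Fin n) K := fun i => if i ∈ J then Z' i else Z i
  have hYg : ∀ j, FreeAlgebra.lift K Y (g j) = FreeAlgebra.lift K Z' (g j) := fun j =>
    lift_congr J Y Z' (fun i hi => by simp [Y, hi]) (g j) (hg j)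
  have hYh : ∀ j, FreeAlgebra.lift K Y (h j) = FreeAlgebra.lift K Z (h j) := fun j =>
    lift_congr Jᶜ Y Z (fun i hi => by
      have hi' : i ∉ J := hi
      simp [Y, hi']) (h j) (hh j)
  have hDj : ∀ j, Dg 2 (ev J a b Y (g j * h j)) := fun j => by
    rw [map_mul]
    exact (Dg_evA (a := a) (b := b) J Y (g j) (hg j)).mul (Dg_evB J hab Y (h j) (hh j))
  have hcj : ∀ j, cf 2 (ev J a b Y (g j * h j)) = FreeAlgebra.lift K Z' (g j) *
      -(FreeAlgebra.lift K Z (h j) b a • Matrix.single a b (1 : K)) := fun j => by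
    rw [map_mul]
    have h3 := cf_mul (Dg_evA (a := a) (b := b) J Y (g j) (hg j)) (Dg_evB J hab Y (h j) (hh j))
    rw [cf_evA J Y (g j) (hg j), cf_evB J hab Y (h j) (hh j), hYg, hYh] at h3
    exact h3
  have hD : Dg 2 (ev J a b Y (∑ j, g j * h j)) := by
    have h3 : ∑ j, g j * h j ∈ DS J Y a b 2 := Submodule.sum_mem _ fun j _ => hDj j
    exact h3
  have hcf : cf 2 (ev J a b Y (∑ j, g j * h j)) = ∑ j, FreeAlgebra.lift K Z' (g j) *
      -(FreeAlgebra.lift K Z (h j) b a • Matrix.single a b (1 : K)) := by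
    rw [map_sum]
    have h3 : ∀ s : Finset (Fin m), cf 2 (∑ j ∈ s, ev J a b Y (g j * h j)) =
        ∑ j ∈ s, FreeAlgebra.lift K Z' (g j) *
          -(FreeAlgebra.lift K Z (h j) b a • Matrix.single a b (1 : K)) := by
      intro s
      induction s using Finset.induction_on with
      | empty => rw [Finset.sum_empty, Finset.sum_empty, cf_zero]
      | insert j s hj ih => rw [Finset.sum_insert hj, Finset.sum_insert hj, cf_add, hcj, ih]
    exact h3 Finset.univ
  refine key hn J hab Y 2 (∑ j, g j * h j) hD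
    (-(FreeAlgebra.lift K Z' (∑ j, (FreeAlgebra.lift K Z (h j) b a) • g j)) b a)
    (neg_ne_zero.2 hZ') ?_ ?_ y ?_ ν hν
  · rw [hcf, Finset.mul_sum, map_sum, Matrix.sum_apply, ← Finset.sum_neg_distrib,
      Finset.sum_smul]
    apply Finset.sum_congr rfl
    intro j _
    rw [mul_neg, mul_neg, mul_smul_comm, mul_smul_comm, ← mul_assoc, EME, smul_smul, map_smul,
      Matrix.smul_apply, smul_eq_mul, neg_smul]
  · refine ⟨∑ j, -(FreeAlgebra.lift K Z (h j) b a • FreeAlgebra.lift K Z' (g j)), ?_⟩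
    rw [hcf, Finset.sum_mul]
    apply Finset.sum_congr rfl
    intro j _
    rw [mul_neg, mul_smul_comm, neg_mul, smul_mul_assoc]
  · have h3 := top_le J hab Y 0
    rw [zero_add, pow_one, pow_zero, mul_one, mul_one] at h3
    exact h3 hy

/-- sums of a polynomial in the variables of `J` and one in the other variables -/
theorem separated [Infinite K] (hn : 3 ≤ n) (J : Set σ) (r t : FreeAlgebra K σ)
    (hr : r ∈ SA K J) (ht : t ∈ SA K Jᶜ) (hr' : ¬ SV n r) (ht' : ¬ SV n t)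
    (ν : ℕ) (hν : ν ≠ 0) : ¬ SV n ((r + t) ^ ν) := by
  intro hSV
  let a : Fin n := ⟨0, by omega⟩
  let b : Fin n := ⟨1, by omega⟩
  let c : Fin n := ⟨2, by omega⟩
  have hab : a ≠ b := by simp [a, b]
  have hac : a ≠ c := by simp [a, c]
  have hbc : b ≠ c := by simp [b, c]
  obtain ⟨Y, hY⟩ := common [(r, a, b), (t, b, a)] (by
    intro q hq
    simp only [List.mem_cons, List.not_mem_nil, or_false] at hq
    rcases hq with rfl | rfl
    · exact exists_entry hr' hab
    · exact exists_entry ht' hab.symm)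
  have hp : FreeAlgebra.lift K Y r a b ≠ 0 := hY (r, a, b) (by simp)
  have hq : FreeAlgebra.lift K Y t b a ≠ 0 := hY (t, b, a) (by simp)
  set p := FreeAlgebra.lift K Y r a b with hpdef
  set q := FreeAlgebra.lift K Y t b a with hqdef
  set W := Wf J (Matrix.single a b (1 : K)) (Matrix.single b a (1 : K)) Y with hW
  have hDr : Dg 2 (FreeAlgebra.lift K W r) := by
    rw [hW, Wf_mem J (single_sq hab.symm) Y r hr]
    exact Dg_conj _ _
  have hDt : Dg 2 (FreeAlgebra.lift K W t) := by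
    rw [hW, Wf_not_mem J (single_sq hab) Y t ht]
    exact Dg_conj _ _
  have hcr : cf 2 (FreeAlgebra.lift K W r) = -(p • Matrix.single b a (1 : K)) := by
    rw [hW, Wf_mem J (single_sq hab.symm) Y r hr, cf_conj, EME]
  have hct : cf 2 (FreeAlgebra.lift K W t) = -(q • Matrix.single a b (1 : K)) := by
    rw [hW, Wf_not_mem J (single_sq hab) Y t ht, cf_conj, EME]
  have hD : Dg 2 (FreeAlgebra.lift K W (r + t)) := by
    rw [map_add]; exact hDr.add hDt
  have hL : cf 2 (FreeAlgebra.lift K W (r + t)) =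
      -(p • Matrix.single b a (1 : K)) + -(q • Matrix.single a b (1 : K)) := by
    rw [map_add, cf_add, hcr, hct]
  obtain ⟨c₀, hc₀⟩ := cf_scalar (M := FreeAlgebra.lift K W ((r + t) ^ ν)) (fun s => by
    rw [evs_lift]
    exact hSV _) (2 * ν) (by omega)
  rw [map_pow, cf_pow hD] at hc₀
  have hu : (Pi.single c (1 : K) : Fin n → K) ≠ 0 := by
    intro h
    have := congrFun h c
    simp at this
  have hLu : (cf 2 (FreeAlgebra.lift K W (r + t))).mulVec (Pi.single c (1 : K)) = 0 := by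
    rw [hL]
    ext i
    simp [Matrix.single_apply, hac, hbc]
  have h0 := mulVec_kernel hu hLu hν hc₀
  have hsq : cf 2 (FreeAlgebra.lift K W (r + t)) * cf 2 (FreeAlgebra.lift K W (r + t)) *
      Matrix.single a b (1 : K) = (p * q) • Matrix.single a b (1 : K) := by
    rw [hL]
    simp only [add_mul, mul_add, neg_mul, mul_neg, smul_mul_assoc, mul_smul_comm, smul_smul,
      Matrix.single_mul_single_same, mul_one, neg_neg]
    rw [Matrix.single_mul_single_of_ne _ _ _ _ hab.symm,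
      Matrix.single_mul_single_of_ne _ _ _ _ hab]
    simp only [smul_zero, zero_mul, add_zero, zero_add, smul_add, smul_neg, neg_zero,
      Matrix.single_mul_single_same, mul_one]
    rw [Matrix.single_mul_single_of_ne _ _ _ _ hab.symm]
    simp [mul_comm]
  have hpow : ∀ m : ℕ, cf 2 (FreeAlgebra.lift K W (r + t)) ^ (2 * m) *
      Matrix.single a b (1 : K) = (p * q) ^ m • Matrix.single a b (1 : K) := by
    intro m
    induction m with
    | zero => rw [mul_zero, pow_zero, pow_zero, one_mul, one_smul]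
    | succ m ih =>
      rw [mul_add, mul_one, pow_add, pow_two, mul_assoc, hsq, mul_smul_comm, ih, smul_smul,
        ← pow_succ']
  have h4 := hpow ν
  rw [mul_comm 2 ν, pow_mul, h0, zero_pow two_ne_zero, zero_mul] at h4
  have h5 := congrFun (congrFun h4 a) b
  simp only [Matrix.zero_apply, Matrix.smul_apply, Matrix.single_apply_same, smul_eq_mul,
    mul_one] at h5
  exact pow_ne_zero ν (mul_ne_zero hp hq) h5.symm

end Pool.Agent.Y69.DV
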